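import Mathlib

/-!
# Weighted sums of correlations
-/

set_option autoImplicit false

open Finset Filter

namespace Pool.Agent.Helper61.DR

/-- one step of the telescoping bound for `∑ q ^ (-(1 + θ))` -/
lemma rpow_step (θ : ℝ) (h0 : 0 < θ) (h1 : θ ≤ 1) (q : ℕ) (hq : 1 ≤ q) :
    ((q + 1 : ℕ) : ℝ) ^ (-(1 + θ)) ≤
      1 / θ * ((q : ℝ) ^ (-θ) - ((q + 1 : ℕ) : ℝ) ^ (-θ)) := by
  have hq0 : (0 : ℝ) < q := by exact_mod_cast hq
  have hq1 : (0 : ℝ) < ((q + 1 : ℕ) : ℝ) := by positivity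
  set x : ℝ := ((q + 1 : ℕ) : ℝ) with hx
  have hqx : (q : ℝ) = x * (1 + -(1 / x)) := by
    rw [hx]; push_cast; field_simp; ring
  have hx2 : 2 ≤ x := by rw [hx]; push_cast; have : (1 : ℝ) ≤ q := by exact_mod_cast hq
                         linarith
  have hinv : 1 / x ≤ 1 / 2 := by
    apply one_div_le_one_div_of_le <;> linarith
  have hinv0 : 0 < 1 / x := by positivity
  have h2 : (1 + -(1 / x)) ^ θ ≤ 1 + θ * (-(1 / x)) :=
    rpow_one_add_le_one_add_mul_self (by linarith) h0.le h1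
  have h3 : (q : ℝ) ^ θ ≤ x ^ θ * (1 - θ / x) := by
    rw [hqx, Real.mul_rpow hq1.le (by linarith)]
    have : 1 + θ * (-(1 / x)) = 1 - θ / x := by ring
    rw [← this]
    gcongr
  have hx0 : 0 < x ^ θ := Real.rpow_pos_of_pos hq1 θ
  have hqθ : 0 < (q : ℝ) ^ θ := Real.rpow_pos_of_pos hq0 θ
  have hs : θ / x < 1 := by
    rw [div_lt_one hq1]; linarith
  have h4 : (x ^ θ)⁻¹ * (1 + θ / x) ≤ ((q : ℝ) ^ θ)⁻¹ := by
    rw [← one_div, ← one_div, div_mul_eq_mul_div, one_mul, div_le_div_iff₀ hx0 hqθ]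
    have h5 : (1 + θ / x) * (q : ℝ) ^ θ ≤ (1 + θ / x) * (x ^ θ * (1 - θ / x)) :=
      mul_le_mul_of_nonneg_left h3 (by positivity)
    have h6 : (1 + θ / x) * (x ^ θ * (1 - θ / x)) = x ^ θ * (1 - (θ / x) ^ 2) := by ring
    rw [h6] at h5
    refine h5.trans ?_
    rw [one_mul]
    have : x ^ θ * (1 - (θ / x) ^ 2) ≤ x ^ θ * 1 := by
      apply mul_le_mul_of_nonneg_left _ hx0.le
      have : 0 ≤ (θ / x) ^ 2 := sq_nonneg _
      linarith
    linarith
  have h5 : x ^ (-(1 + θ)) = (x ^ θ)⁻¹ / x := by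
    rw [show -(1 + θ) = -θ - 1 by ring, Real.rpow_sub hq1, Real.rpow_neg hq1.le, Real.rpow_one]
  rw [h5, Real.rpow_neg hq0.le, Real.rpow_neg hq1.le]
  have h6 : (x ^ θ)⁻¹ / x = 1 / θ * ((x ^ θ)⁻¹ * (1 + θ / x) - (x ^ θ)⁻¹) := by
    field_simp
    ring
  rw [h6]
  have : 0 ≤ 1 / θ := by positivity
  gcongr

/-- partial sums from `n` on -/
lemma sum_rpow_tail (θ : ℝ) (h0 : 0 < θ) (h1 : θ ≤ 1) (n k : ℕ) (hn : 1 ≤ n) :
    ∑ q ∈ range k, ((n + 1 + q : ℕ) : ℝ) ^ (-(1 + θ)) ≤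
      1 / θ * ((n : ℝ) ^ (-θ) - ((n + k : ℕ) : ℝ) ^ (-θ)) := by
  induction k with
  | zero => simp
  | succ k ih =>
    rw [sum_range_succ]
    have h2 := rpow_step θ h0 h1 (n + k) (by omega)
    have e1 : n + 1 + k = n + k + 1 := by omega
    have e2 : n + (k + 1) = n + k + 1 := by omega
    rw [e1, e2]
    calc _ ≤ 1 / θ * ((n : ℝ) ^ (-θ) - ((n + k : ℕ) : ℝ) ^ (-θ)) +
        1 / θ * (((n + k : ℕ) : ℝ) ^ (-θ) - ((n + k + 1 : ℕ) : ℝ) ^ (-θ)) := add_le_add ih h2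
      _ = _ := by ring

/-- Tails of `∑ q ^ (-(1 + θ))`. -/
lemma tail_rpow (θ : ℝ) (h0 : 0 < θ) (h1 : θ ≤ 1) (w : ℝ) (hw : 0 < w) (T : Finset ℕ)
    (hT1 : ∀ q ∈ T, 1 ≤ q) (hT : ∀ q ∈ T, w ≤ 2 * q) :
    ∑ q ∈ T, (q : ℝ) ^ (-(1 + θ)) ≤ (1 + 1 / θ) * 2 * w ^ (-θ) := by
  -- the first index
  obtain ⟨n, hn1, hn2, hn3⟩ : ∃ n : ℕ, 1 ≤ n ∧ w ≤ 2 * n ∧ ∀ q ∈ T, n ≤ q := by
    rcases le_or_gt w 2 with hw2 | hw2
    · exact ⟨1, le_rfl, by simpa using hw2, hT1⟩
    · refine ⟨⌈w / 2⌉₊, Nat.ceil_pos.mpr (by linarith), ?_, fun q hq => Nat.ceil_le.mpr ?_⟩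
      · have := Nat.le_ceil (w / 2)
        linarith
      · have := hT q hq
        linarith
  have hn0 : (0 : ℝ) < n := by exact_mod_cast hn1
  set S : ℕ := T.sup id with hS
  have hsub : T ⊆ insert n ((range S).image fun q => n + 1 + q) := by
    intro q hq
    rw [mem_insert, mem_image]
    have h2 := hn3 q hq
    have h3 : q ≤ S := Finset.le_sup (f := id) hq
    rcases Nat.eq_or_lt_of_le h2 with h | h
    · exact Or.inl h.symm
    · exact Or.inr ⟨q - (n + 1), by rw [mem_range]; omega, by omega⟩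
  have h2 : ∑ q ∈ T, (q : ℝ) ^ (-(1 + θ)) ≤ (n : ℝ) ^ (-(1 + θ)) + 1 / θ * (n : ℝ) ^ (-θ) := by
    refine (sum_le_sum_of_subset_of_nonneg hsub fun q _ _ => by positivity).trans ?_
    rw [sum_insert (by
      rw [mem_image]
      rintro ⟨q, -, hq⟩
      omega), sum_image (by
      intro a _ b _ hab
      have : n + 1 + a = n + 1 + b := hab
      omega)]
    refine add_le_add le_rfl ((sum_rpow_tail θ h0 h1 n S hn1).trans ?_)
    have : 0 ≤ ((n + S : ℕ) : ℝ) ^ (-θ) := by positivity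
    have h3 : 0 ≤ 1 / θ := by positivity
    nlinarith
  have h3 : (n : ℝ) ^ (-(1 + θ)) ≤ (n : ℝ) ^ (-θ) :=
    Real.rpow_le_rpow_of_exponent_le (by exact_mod_cast hn1) (by linarith)
  have h4 : (n : ℝ) ^ (-θ) ≤ 2 * w ^ (-θ) := by
    have h5 : (n : ℝ) ^ (-θ) ≤ (w / 2) ^ (-θ) :=
      Real.rpow_le_rpow_of_nonpos (by positivity) (by linarith) (by linarith)
    have h6 : (w / 2) ^ (-θ) = w ^ (-θ) * 2 ^ θ := by
      rw [Real.div_rpow hw.le (by norm_num), Real.rpow_neg (by norm_num : (0 : ℝ) ≤ 2)]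
      field_simp
    have h7 : (2 : ℝ) ^ θ ≤ 2 ^ (1 : ℝ) := Real.rpow_le_rpow_of_exponent_le (by norm_num) h1
    rw [Real.rpow_one] at h7
    have h8 : 0 ≤ w ^ (-θ) := by positivity
    rw [h6] at h5
    nlinarith
  have h5 : 0 ≤ 1 / θ := by positivity
  nlinarith

/-- Interchange of the summations. -/
lemma summable_blocks (B : ℕ) (hB : 2 ≤ B) (θ : ℝ) (h0 : 0 < θ) (h1 : θ ≤ 1) (c : ℕ → ℝ)
    (hc : ∀ b, 0 ≤ c b) (hs : Summable fun b : ℕ => c b / Real.log (b + 2) ^ θ) :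
    Summable fun q : ℕ => (q : ℝ) ^ (-(1 + θ)) * ∑ b ∈ range (B ^ q), c b := by
  classical
  have hlog : ∀ b : ℕ, 0 < Real.log (b + 2) := fun b => Real.log_pos (by
    have : (0 : ℝ) ≤ b := Nat.cast_nonneg _
    linarith)
  have hBr : (2 : ℝ) ≤ B := by exact_mod_cast hB
  have hlB : 0 < Real.log B := Real.log_pos (by linarith)
  apply summable_of_sum_range_le
    (c := (1 + 1 / θ) * 2 * Real.log B ^ θ * ∑' b : ℕ, c b / Real.log (b + 2) ^ θ)
  · intro q
    exact mul_nonneg (by positivity) (sum_nonneg fun b _ => hc b)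
  intro n
  calc ∑ q ∈ range n, (q : ℝ) ^ (-(1 + θ)) * ∑ b ∈ range (B ^ q), c b
      = ∑ q ∈ range n, ∑ b ∈ range (B ^ n),
          (if b < B ^ q then (q : ℝ) ^ (-(1 + θ)) * c b else 0) := by
        refine sum_congr rfl fun q hq => ?_
        rw [mul_sum, ← sum_filter]
        refine sum_congr ?_ fun _ _ => rfl
        ext b
        rw [mem_filter, mem_range, mem_range]
        refine ⟨fun hb => ⟨lt_of_lt_of_le hb ?_, hb⟩, fun hb => hb.2⟩
        exact Nat.pow_le_pow_right (by omega) (mem_range.mp hq).le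
    _ = ∑ b ∈ range (B ^ n), c b * ∑ q ∈ (range n).filter (fun q => b < B ^ q),
          (q : ℝ) ^ (-(1 + θ)) := by
        rw [sum_comm]
        refine sum_congr rfl fun b _ => ?_
        rw [← sum_filter, mul_sum]
        exact sum_congr rfl fun _ _ => mul_comm _ _
    _ ≤ ∑ b ∈ range (B ^ n), c b *
          ((1 + 1 / θ) * 2 * (Real.log (b + 2) / Real.log B) ^ (-θ)) := by
        refine sum_le_sum fun b _ => mul_le_mul_of_nonneg_left ?_ (hc b)
        have hz : ∑ q ∈ (range n).filter (fun q => b < B ^ q), (q : ℝ) ^ (-(1 + θ)) =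
            ∑ q ∈ ((range n).filter (fun q => b < B ^ q)).erase 0, (q : ℝ) ^ (-(1 + θ)) := by
          by_cases h : 0 ∈ (range n).filter (fun q => b < B ^ q)
          · rw [← add_sum_erase _ _ h]
            rw [Nat.cast_zero, Real.zero_rpow (by linarith), zero_add]
          · rw [erase_eq_of_notMem h]
        rw [hz]
        refine tail_rpow θ h0 h1 _ (div_pos (hlog b) hlB) _ (fun q hq => ?_) (fun q hq => ?_)
        · rw [mem_erase] at hq
          omega
        · rw [mem_erase, mem_filter] at hq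
          obtain ⟨hq0, -, hq⟩ := hq
          have h2 : (b + 2 : ℝ) ≤ B ^ (2 * q) := by
            have h3 : b + 2 ≤ B ^ (2 * q) := by
              have h4 : B ^ (2 * q) = B ^ q * B ^ q := by rw [← pow_add]; congr 1; omega
              have h5 : 2 ≤ B ^ q := by
                calc 2 ≤ B := hB
                  _ = B ^ 1 := (pow_one B).symm
                  _ ≤ B ^ q := Nat.pow_le_pow_right (by omega) (by omega)
              rw [h4]
              nlinarith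
            exact_mod_cast h3
          have h3 := Real.log_le_log (by positivity) h2
          rw [Real.log_pow] at h3
          rw [div_le_iff₀ hlB]
          refine h3.trans (le_of_eq ?_)
          push_cast
          ring
    _ = (1 + 1 / θ) * 2 * Real.log B ^ θ * ∑ b ∈ range (B ^ n), c b / Real.log (b + 2) ^ θ := by
        rw [mul_sum]
        refine sum_congr rfl fun b _ => ?_
        rw [Real.rpow_neg (div_pos (hlog b) hlB).le, Real.div_rpow (hlog b).le hlB.le]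
        have h4 : 0 < Real.log (b + 2) ^ θ := Real.rpow_pos_of_pos (hlog b) θ
        have h5 : 0 < Real.log B ^ θ := Real.rpow_pos_of_pos hlB θ
        field_simp
    _ ≤ _ := by
        have h5 : 0 < Real.log B ^ θ := Real.rpow_pos_of_pos hlB θ
        refine mul_le_mul_of_nonneg_left (hs.sum_le_tsum _ fun b _ => ?_) (by positivity)
        exact div_nonneg (hc b) (Real.rpow_nonneg (hlog b).le θ)

/-- A bounded periodic positive sequence is not summable with logarithmic weights. -/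
lemma not_summable_log (θ : ℝ) (h0 : 0 < θ) (h1 : θ ≤ 1) (p : ℕ) (hp : 1 ≤ p) (δ : ℝ)
    (hδ : 0 < δ) (c : ℕ → ℝ) (hc : ∀ b, 0 ≤ c b) (hcp : ∀ j : ℕ, δ ≤ c (p * j)) :
    ¬ Summable fun b : ℕ => c b / Real.log (b + 2) ^ θ := by
  intro hs
  have hinj : Function.Injective fun j : ℕ => p * j := fun a b hab =>
    Nat.eq_of_mul_eq_mul_left (by omega) hab
  have h2 := hs.comp_injective hinj
  have h3 : Summable fun j : ℕ => δ / (p + 1) * (1 / ((j : ℝ) + 2)) := by
    refine Summable.of_nonneg_of_le (fun j => by positivity) (fun j => ?_) h2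
    simp only [Function.comp]
    have hlog0 : 0 < Real.log ((p * j : ℕ) + 2) := Real.log_pos (by
      have : (0 : ℝ) ≤ (p * j : ℕ) := Nat.cast_nonneg _
      linarith)
    have h4 : Real.log ((p * j : ℕ) + 2) ^ θ ≤ (p + 1) * ((j : ℝ) + 2) := by
      have h5 : Real.log ((p * j : ℕ) + 2) ≤ (p * j : ℕ) + 1 := by
        have := Real.log_le_sub_one_of_pos (x := ((p * j : ℕ) + 2 : ℝ)) (by positivity)
        linarith
      calc Real.log ((p * j : ℕ) + 2) ^ θ ≤ ((p * j : ℕ) + 1 : ℝ) ^ θ :=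
            Real.rpow_le_rpow hlog0.le h5 h0.le
        _ ≤ ((p * j : ℕ) + 1 : ℝ) ^ (1 : ℝ) :=
            Real.rpow_le_rpow_of_exponent_le (by
              have : (0 : ℝ) ≤ (p * j : ℕ) := Nat.cast_nonneg _
              linarith) h1
        _ = (p * j : ℕ) + 1 := Real.rpow_one _
        _ ≤ (p + 1) * ((j : ℝ) + 2) := by
            push_cast
            have h6 : (0 : ℝ) ≤ p := Nat.cast_nonneg _
            have h7 : (0 : ℝ) ≤ j := Nat.cast_nonneg _
            nlinarith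
    have h5 : 0 < Real.log ((p * j : ℕ) + 2) ^ θ := Real.rpow_pos_of_pos hlog0 θ
    calc δ / (p + 1) * (1 / ((j : ℝ) + 2)) = δ / ((p + 1) * ((j : ℝ) + 2)) := by
          field_simp
      _ ≤ c (p * j) / Real.log ((p * j : ℕ) + 2) ^ θ := by
          apply div_le_div₀ (hc _) (hcp j) h5 h4
  have h4 : Summable fun j : ℕ => 1 / ((j : ℝ) + 2) := by
    have h5 := h3.mul_left ((p + 1) / δ)
    refine h5.congr fun j => ?_
    field_simp
  have h5 : Summable fun j : ℕ => 1 / (((j + 2 : ℕ)) : ℝ) := by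
    refine h4.congr fun j => ?_
    push_cast
    rfl
  have h6 := (summable_nat_add_iff (f := fun j : ℕ => 1 / (j : ℝ)) 2).mp h5
  exact Real.not_summable_one_div_natCast h6

/-- The sum of a function of the distance over a square. -/
lemma sum_sum_dist (g : ℕ → ℝ) (N : ℕ) :
    ∑ k ∈ range N, ∑ l ∈ range N, g ((k - l) + (l - k)) =
      2 * ∑ b ∈ range N, ((N : ℝ) - b) * g b - N * g 0 := by
  induction N with
  | zero => simp
  | succ N ih =>
    have h1 : ∑ k ∈ range (N + 1), ∑ l ∈ range (N + 1), g ((k - l) + (l - k)) =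
        ∑ k ∈ range N, ∑ l ∈ range N, g ((k - l) + (l - k)) +
        2 * ∑ k ∈ range N, g (N - k) + g 0 := by
      rw [sum_range_succ]
      have h2 : ∀ k ∈ range N, ∑ l ∈ range (N + 1), g ((k - l) + (l - k)) =
          ∑ l ∈ range N, g ((k - l) + (l - k)) + g (N - k) := by
        intro k hk
        rw [sum_range_succ]
        congr 2
        have := mem_range.mp hk
        omega
      rw [sum_congr rfl h2, sum_add_distrib, sum_range_succ]
      have h3 : ∑ l ∈ range N, g ((N - l) + (l - N)) = ∑ k ∈ range N, g (N - k) := by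
        refine sum_congr rfl fun k hk => ?_
        congr 1
        have := mem_range.mp hk
        omega
      rw [h3]
      have h4 : (N - N) + (N - N) = 0 := by omega
      rw [h4]
      ring
    have h5 : ∑ k ∈ range N, g (N - k) = ∑ b ∈ range N, g (b + 1) := by
      rw [← sum_range_reflect]
      refine sum_congr rfl fun k hk => ?_
      congr 1
      have := mem_range.mp hk
      omega
    have h6 : ∑ b ∈ range (N + 1), g b = ∑ b ∈ range N, g (b + 1) + g 0 := sum_range_succ' g N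
    have h7 : ∑ b ∈ range (N + 1), (((N + 1 : ℕ) : ℝ) - b) * g b =
        ∑ b ∈ range N, ((N : ℝ) - b) * g b + ∑ b ∈ range (N + 1), g b := by
      have h8 : ∀ b ∈ range (N + 1), (((N + 1 : ℕ) : ℝ) - b) * g b =
          ((N : ℝ) - b) * g b + g b := by
        intro b _
        push_cast
        ring
      rw [sum_congr rfl h8, sum_add_distrib, sum_range_succ]
      simp
    rw [h1, ih, h5, h7, h6]
    push_cast
    ring

/-- comparison of powers of a number `≥ 1 / 2` -/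
lemma rpow_le_mul_rpow {x θ θ' : ℝ} (hx : 1 / 2 ≤ x) (h : θ ≤ θ') :
    x ^ θ ≤ 2 ^ (θ' - θ) * x ^ θ' := by
  have hx0 : 0 < x := by linarith
  have h1 : (1 : ℝ) ≤ (2 * x) ^ (θ' - θ) := Real.one_le_rpow (by linarith) (by linarith)
  rw [Real.mul_rpow (by norm_num) hx0.le] at h1
  have h2 : 2 ^ (θ' - θ) * x ^ θ' = x ^ θ * (2 ^ (θ' - θ) * x ^ (θ' - θ)) := by
    rw [Real.rpow_sub hx0]
    have : x ^ θ ≠ 0 := (Real.rpow_pos_of_pos hx0 θ).ne'
    field_simp
  rw [h2]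
  have h3 : 0 ≤ x ^ θ := Real.rpow_nonneg hx0.le θ
  nlinarith

lemma half_le_log (b : ℕ) : 1 / 2 ≤ Real.log (b + 2) := by
  have h5 : Real.log 2 ≤ Real.log (b + 2) := by
    apply Real.log_le_log (by norm_num)
    have : (0 : ℝ) ≤ b := Nat.cast_nonneg _
    linarith
  have := Real.log_two_gt_d9
  linarith

/-- passage to a larger exponent -/
lemma summable_log_mono {c : ℕ → ℝ} (hc : ∀ b, 0 ≤ c b) {θ θ' : ℝ} (h : θ ≤ θ')
    (hs : Summable fun b : ℕ => c b / Real.log (b + 2) ^ θ) :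
    Summable fun b : ℕ => c b / Real.log (b + 2) ^ θ' := by
  have hp : ∀ (b : ℕ) (θ : ℝ), 0 < Real.log (b + 2) ^ θ := fun b θ =>
    Real.rpow_pos_of_pos (by linarith [half_le_log b]) _
  refine Summable.of_nonneg_of_le (fun b => div_nonneg (hc b) (hp b _).le) (fun b => ?_)
    (hs.mul_left (2 ^ (θ' - θ)))
  have h7 := rpow_le_mul_rpow (half_le_log b) h
  rw [mul_div_assoc', div_le_div_iff₀ (hp b _) (hp b _)]
  calc c b * Real.log (b + 2) ^ θ ≤ c b * (2 ^ (θ' - θ) * Real.log (b + 2) ^ θ') :=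
        mul_le_mul_of_nonneg_left h7 (hc b)
    _ = _ := by ring

/-- Deviations bounded through Cesàro sums. -/
lemma summable_of_cesaro (B : ℕ) (hB : 2 ≤ B) (θ : ℝ) (hθ0 : 0 ≤ θ) (hθ : θ < 1 / 2) (C η : ℝ)
    (hη : 0 < η) (D : ℕ → ℝ) (hD0 : ∀ q, 0 ≤ D q)
    (hD : ∀ q, 1 ≤ q → D q ≤ 2 * (C * Real.log ((B ^ q : ℕ) + 1) ^ θ) / (B ^ q : ℕ) / η ^ 2) :
    Summable fun q : ℕ => ((B : ℝ) ^ q / (q : ℝ) ^ (5 / 4 + θ / 2)) * D q := by
  have hBr : (2 : ℝ) ≤ B := by exact_mod_cast hB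
  have hlB : 0 < Real.log B := Real.log_pos (by linarith)
  set K : ℝ := (2 * Real.log B) ^ θ with hK
  have hK0 : 0 < K := Real.rpow_pos_of_pos (by positivity) θ
  have hs : Summable fun q : ℕ => (2 * |C| * K / η ^ 2) * (q : ℝ) ^ (-(5 / 4 - θ / 2) : ℝ) := by
    apply Summable.mul_left
    exact Real.summable_nat_rpow.mpr (by linarith)
  refine Summable.of_nonneg_of_le (fun q => mul_nonneg (by positivity) (hD0 q)) (fun q => ?_) hs
  rcases Nat.eq_zero_or_pos q with hq | hq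
  · subst hq
    rw [Nat.cast_zero, Real.zero_rpow (by linarith), Real.zero_rpow (by linarith)]
    simp
  have hq0 : (0 : ℝ) < q := by exact_mod_cast hq
  have hη2 : 0 < η ^ 2 := by positivity
  have hlog : Real.log (((B ^ q : ℕ) : ℝ) + 1) ^ θ ≤ K * (q : ℝ) ^ θ := by
    have h3 : (((B ^ q : ℕ) : ℝ) + 1) ≤ B ^ (2 * q) := by
      have h4 : B ^ q + 1 ≤ B ^ (2 * q) := by
        have h5 : B ^ (2 * q) = B ^ q * B ^ q := by rw [← pow_add]; congr 1; omega
        have h6 : 2 ≤ B ^ q := by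
          calc 2 ≤ B := hB
            _ = B ^ 1 := (pow_one B).symm
            _ ≤ B ^ q := Nat.pow_le_pow_right (by omega) (by omega)
        rw [h5]
        nlinarith
      exact_mod_cast h4
    have h4 : Real.log (((B ^ q : ℕ) : ℝ) + 1) ≤ 2 * Real.log B * q := by
      have h5 := Real.log_le_log (by positivity) h3
      rw [Real.log_pow] at h5
      refine h5.trans (le_of_eq ?_)
      push_cast
      ring
    have h5 : 0 ≤ Real.log (((B ^ q : ℕ) : ℝ) + 1) := Real.log_nonneg (by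
      have : (0 : ℝ) ≤ ((B ^ q : ℕ) : ℝ) := Nat.cast_nonneg _
      linarith)
    calc Real.log (((B ^ q : ℕ) : ℝ) + 1) ^ θ ≤ (2 * Real.log B * q) ^ θ :=
          Real.rpow_le_rpow h5 h4 hθ0
      _ = K * (q : ℝ) ^ θ := Real.mul_rpow (by positivity) hq0.le
  have hlog0 : 0 ≤ Real.log (((B ^ q : ℕ) : ℝ) + 1) ^ θ := by
    apply Real.rpow_nonneg
    exact Real.log_nonneg (by
      have : (0 : ℝ) ≤ ((B ^ q : ℕ) : ℝ) := Nat.cast_nonneg _
      linarith)
  have hBq : (0 : ℝ) < ((B ^ q : ℕ) : ℝ) := by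
    have : 0 < B ^ q := Nat.pow_pos (by omega)
    exact_mod_cast this
  have h1 : D q ≤ 2 * (|C| * (K * (q : ℝ) ^ θ)) / (B ^ q : ℕ) / η ^ 2 := by
    refine (hD q hq).trans ?_
    have h2 : C * Real.log (((B ^ q : ℕ) : ℝ) + 1) ^ θ ≤ |C| * (K * (q : ℝ) ^ θ) :=
      (mul_le_mul_of_nonneg_right (le_abs_self C) hlog0).trans
        (mul_le_mul_of_nonneg_left hlog (abs_nonneg C))
    gcongr
  have e1 : (q : ℝ) ^ (-(5 / 4 - θ / 2) : ℝ) = (q : ℝ) ^ θ / (q : ℝ) ^ (5 / 4 + θ / 2 : ℝ) := by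
    rw [← Real.rpow_sub hq0]
    congr 1
    ring
  have hq11 : 0 < (q : ℝ) ^ (5 / 4 + θ / 2 : ℝ) := Real.rpow_pos_of_pos hq0 _
  have hB0 : (0 : ℝ) < (B : ℝ) ^ q := by positivity
  calc ((B : ℝ) ^ q / (q : ℝ) ^ (5 / 4 + θ / 2 : ℝ)) * D q
      ≤ ((B : ℝ) ^ q / (q : ℝ) ^ (5 / 4 + θ / 2 : ℝ)) *
        (2 * (|C| * (K * (q : ℝ) ^ θ)) / (B ^ q : ℕ) / η ^ 2) := by gcongr
    _ = (2 * |C| * K / η ^ 2) * (q : ℝ) ^ (-(5 / 4 - θ / 2) : ℝ) := by
        rw [e1]
        push_cast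
        field_simp

/-- Deviations bounded through sums of correlations. -/
lemma summable_of_corr (B : ℕ) (hB : 2 ≤ B) (θ : ℝ) (hθ0 : 0 < θ) (hθ : θ ≤ 1) (η : ℝ)
    (hη : 0 < η) (c : ℕ → ℝ) (hc : ∀ b, 0 ≤ c b)
    (hs : Summable fun b : ℕ => c b / Real.log (b + 2) ^ θ) (D : ℕ → ℝ) (hD0 : ∀ q, 0 ≤ D q)
    (hD : ∀ q, 1 ≤ q → D q ≤ 2 * (∑ b ∈ range (B ^ q), c b) / (B ^ q : ℕ) / η ^ 2) :
    Summable fun q : ℕ => ((B : ℝ) ^ q / (q : ℝ) ^ (1 + θ)) * D q := by
  have hs' := (summable_blocks B hB θ hθ0 hθ c hc hs).mul_left (2 / η ^ 2)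
  refine Summable.of_nonneg_of_le (fun q => mul_nonneg (by positivity) (hD0 q)) (fun q => ?_) hs'
  rcases Nat.eq_zero_or_pos q with hq | hq
  · subst hq
    rw [Nat.cast_zero, Real.zero_rpow (by linarith), Real.zero_rpow (by linarith)]
    simp
  have hq0 : (0 : ℝ) < q := by exact_mod_cast hq
  have hη2 : 0 < η ^ 2 := by positivity
  have hB0 : (0 : ℝ) < (B : ℝ) ^ q := by
    have : (0 : ℝ) < B := by exact_mod_cast (by omega : 0 < B)
    positivity
  have hq11 : 0 < (q : ℝ) ^ (1 + θ) := Real.rpow_pos_of_pos hq0 _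
  have e1 : (q : ℝ) ^ (-(1 + θ) : ℝ) = ((q : ℝ) ^ (1 + θ))⁻¹ := by
    rw [← Real.rpow_neg hq0.le]
  calc ((B : ℝ) ^ q / (q : ℝ) ^ (1 + θ)) * D q
      ≤ ((B : ℝ) ^ q / (q : ℝ) ^ (1 + θ)) *
        (2 * (∑ b ∈ range (B ^ q), c b) / (B ^ q : ℕ) / η ^ 2) :=
        mul_le_mul_of_nonneg_left (hD q hq) (by positivity)
    _ = 2 / η ^ 2 * ((q : ℝ) ^ (-(1 + θ) : ℝ) * ∑ b ∈ range (B ^ q), c b) := by
        rw [e1]
        push_cast
        field_simp

end Pool.Agent.Helper61.DR
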