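import Mathlib
import Pool.Agent.Helper61.FR.St.P12
import Pool.Agent.Helper61.DR.Weights
import Pool.Agent.Helper88.MR.Core3

/-!
# Diffusive rigidity for measures on `[0, 1)`, along `×3` and along `×2`
-/

set_option autoImplicit false

open MeasureTheory Finset Filter

namespace Pool.Agent.Helper61.DR

open Pool.Agent.Helper61.FR

/-- correlation of the character of frequency `m` along `×g` at time `b` -/
noncomputable def cc (μ : Measure ℝ) (g m b : ℕ) : ℂ :=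
  cf μ (m * ((g : ℤ) ^ b - 1)) - (‖cf μ m‖ ^ 2 : ℝ)

lemma cf_zero {μ : Measure ℝ} (h : Inv23 μ) : cf μ 0 = 1 := by
  have := h.prob
  unfold cf
  simp [e]

lemma norm_cf_le {μ : Measure ℝ} (h : Inv23 μ) (n : ℤ) : ‖cf μ n‖ ≤ 1 := by
  have := h.prob
  unfold cf
  refine (norm_integral_le_integral_norm _).trans (le_of_eq ?_)
  simp [norm_e]

/-- the algebra of the variance of averages along one map -/
lemma variance_alg (g : ℕ → ℝ) (c : ℝ) (g0 : g 0 = 1) (N : ℕ) (hN : 1 ≤ N) :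
    (∑ k ∈ range N, ∑ l ∈ range N, g ((k - l) + (l - k))) / (N : ℝ) ^ 2 - c =
      (2 * ∑ b ∈ range N, (1 - (b : ℝ) / N) * (g b - c) - (1 - c)) / N := by
  have hN0 : (0 : ℝ) < N := by exact_mod_cast hN
  rw [sum_sum_dist]
  have h3 : ∀ n : ℕ, ∑ b ∈ range n, ((n : ℝ) - b) = n * (n + 1) / 2 := by
    intro n
    induction n with
    | zero => simp
    | succ n ih =>
      have h4 : ∀ b ∈ range n, (((n + 1 : ℕ) : ℝ) - b) = ((n : ℝ) - b) + 1 := by
        intro b _; push_cast; ring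
      rw [sum_range_succ, sum_congr rfl h4, sum_add_distrib, ih]
      simp only [sum_const, card_range, nsmul_eq_mul, mul_one]
      push_cast
      ring
  have h4 : ∑ b ∈ range N, (1 - (b : ℝ) / N) * (g b - c) =
      (∑ b ∈ range N, ((N : ℝ) - b) * g b - c * (N * (N + 1) / 2)) / N := by
    rw [← h3 N, mul_sum, ← sum_sub_distrib, sum_div]
    refine sum_congr rfl fun b _ => ?_
    field_simp
  rw [h4, g0]
  field_simp
  ring

/-- The variance of the averages along `×3` in terms of the correlations. -/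
theorem variance_three {μ : Measure ℝ} (h : Inv23 μ) (N m : ℕ) (hN : 1 ≤ N) :
    ∫ x, ‖avg 1 N (fun y => e (m * y)) x - ∫ y, e (m * y) ∂μ‖ ^ 2 ∂μ =
      (2 * ∑ b ∈ range N, (1 - (b : ℝ) / N) * (cc μ 3 m b).re - (1 - ‖cf μ m‖ ^ 2)) / N := by
  rw [variance_eq h 1 N m le_rfl hN]
  set g : ℕ → ℝ := fun b => (cf μ (m * (3 ^ b - 1))).re with hg
  have h1 : ∑ i ∈ range 1, ∑ k ∈ range N, ∑ i' ∈ range 1, ∑ k' ∈ range N,
      (cf μ (m * (2 ^ i * 3 ^ k - 2 ^ i' * 3 ^ k'))).re =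
      ∑ k ∈ range N, ∑ l ∈ range N, g ((k - l) + (l - k)) := by
    rw [sum_range_one]
    refine sum_congr rfl fun k _ => ?_
    rw [sum_range_one]
    refine sum_congr rfl fun l _ => ?_
    simp only [hg, pow_zero, one_mul]
    rcases le_total l k with hk | hk
    · obtain ⟨b, rfl⟩ := Nat.exists_eq_add_of_le hk
      have e1 : (l + b - l) + (l - (l + b)) = b := by omega
      have e2 : ((m : ℤ) * (3 ^ (l + b) - 3 ^ l)) = 2 ^ 0 * 3 ^ l * (m * (3 ^ b - 1)) := by ring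
      rw [e1, e2, cf_mul h]
    · obtain ⟨b, rfl⟩ := Nat.exists_eq_add_of_le hk
      have e1 : (k - (k + b)) + (k + b - k) = b := by omega
      have e2 : ((m : ℤ) * (3 ^ k - 3 ^ (k + b))) = 2 ^ 0 * 3 ^ k * (-(m * (3 ^ b - 1))) := by ring
      rw [e1, e2, cf_mul h, cf_neg]
      simp
  have g0 : g 0 = 1 := by
    simp only [hg, pow_zero, sub_self, mul_zero]
    rw [cf_zero h]
    simp
  have h2 := variance_alg g (‖cf μ m‖ ^ 2) g0 N hN
  rw [h1]
  push_cast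
  rw [one_mul, h2]
  have h3 : ∀ b, (cc μ 3 m b).re = g b - ‖cf μ m‖ ^ 2 := by
    intro b
    unfold cc
    rw [Complex.sub_re, Complex.ofReal_re]
    rfl
  simp only [h3]

/-- The variance of the averages along `×2` in terms of the correlations. -/
theorem variance_two {μ : Measure ℝ} (h : Inv23 μ) (N m : ℕ) (hN : 1 ≤ N) :
    ∫ x, ‖avg N 1 (fun y => e (m * y)) x - ∫ y, e (m * y) ∂μ‖ ^ 2 ∂μ =
      (2 * ∑ b ∈ range N, (1 - (b : ℝ) / N) * (cc μ 2 m b).re - (1 - ‖cf μ m‖ ^ 2)) / N := by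
  rw [variance_eq h N 1 m hN le_rfl]
  set g : ℕ → ℝ := fun b => (cf μ (m * (2 ^ b - 1))).re with hg
  have h1 : ∑ i ∈ range N, ∑ k ∈ range 1, ∑ i' ∈ range N, ∑ k' ∈ range 1,
      (cf μ (m * (2 ^ i * 3 ^ k - 2 ^ i' * 3 ^ k'))).re =
      ∑ k ∈ range N, ∑ l ∈ range N, g ((k - l) + (l - k)) := by
    refine sum_congr rfl fun k _ => ?_
    rw [sum_range_one]
    refine sum_congr rfl fun l _ => ?_
    rw [sum_range_one]
    simp only [hg, pow_zero, mul_one]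
    rcases le_total l k with hk | hk
    · obtain ⟨b, rfl⟩ := Nat.exists_eq_add_of_le hk
      have e1 : (l + b - l) + (l - (l + b)) = b := by omega
      have e2 : ((m : ℤ) * (2 ^ (l + b) - 2 ^ l)) = 2 ^ l * 3 ^ 0 * (m * (2 ^ b - 1)) := by ring
      rw [e1, e2, cf_mul h]
    · obtain ⟨b, rfl⟩ := Nat.exists_eq_add_of_le hk
      have e1 : (k - (k + b)) + (k + b - k) = b := by omega
      have e2 : ((m : ℤ) * (2 ^ k - 2 ^ (k + b))) = 2 ^ k * 3 ^ 0 * (-(m * (2 ^ b - 1))) := by ring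
      rw [e1, e2, cf_mul h, cf_neg]
      simp
  have g0 : g 0 = 1 := by
    simp only [hg, pow_zero, sub_self, mul_zero]
    rw [cf_zero h]
    simp
  have h2 := variance_alg g (‖cf μ m‖ ^ 2) g0 N hN
  rw [h1]
  push_cast
  rw [mul_one, h2]
  have h3 : ∀ b, (cc μ 2 m b).re = g b - ‖cf μ m‖ ^ 2 := by
    intro b
    unfold cc
    rw [Complex.sub_re, Complex.ofReal_re]
    rfl
  simp only [h3]

lemma norm_avg_le (M N m : ℕ) (x : ℝ) : ‖avg M N (fun y => e (m * y)) x‖ ≤ 1 := by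
  unfold avg
  rw [norm_div]
  refine div_le_one_of_le₀ ?_ (norm_nonneg _)
  refine (norm_sum_le _ _).trans ?_
  have h1 : ∀ i ∈ range M, ‖∑ k ∈ range N, e (m * (2 ^ i * 3 ^ k * x))‖ ≤ N := by
    intro i _
    refine (norm_sum_le _ _).trans ?_
    simp [norm_e]
  refine (sum_le_sum h1).trans (le_of_eq ?_)
  simp

/-- Chebyshev -/
theorem cheb {μ : Measure ℝ} (h : Inv23 μ) (M N m : ℕ) (η : ℝ) (hη : 0 < η) :
    μ.real (dev μ M N m η) ≤
      (∫ x, ‖avg M N (fun y => e (m * y)) x - ∫ y, e (m * y) ∂μ‖ ^ 2 ∂μ) / η ^ 2 := by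
  have := h.prob
  have hint : Integrable (fun x => ‖avg M N (fun y => e (m * y)) x -
      ∫ y, e (m * y) ∂μ‖ ^ 2) μ := by
    have h4 : Integrable (fun x => avg M N (fun y => e (m * y)) x -
        ∫ y, e (m * y) ∂μ) μ := (integrable_avg h M N m).sub (integrable_const _)
    refine Integrable.of_bound (h4.1.norm.pow 2) (2 ^ 2) (Eventually.of_forall fun x => ?_)
    rw [Real.norm_of_nonneg (by positivity)]
    apply pow_le_pow_left₀ (norm_nonneg _)
    have h6 : ‖∫ y, e (m * y) ∂μ‖ ≤ 1 := by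
      refine (norm_integral_le_integral_norm _).trans ?_
      simp [norm_e]
    exact (norm_sub_le _ _).trans (by linarith [norm_avg_le M N m x])
  have h2 := mul_meas_ge_le_integral_of_nonneg (μ := μ)
    (f := fun x => ‖avg M N (fun y => e (m * y)) x - ∫ y, e (m * y) ∂μ‖ ^ 2)
    (Eventually.of_forall fun x => by positivity) hint (η ^ 2)
  have h3 : μ.real (dev μ M N m η) ≤ μ.real {x | η ^ 2 ≤
      ‖avg M N (fun y => e (m * y)) x - ∫ y, e (m * y) ∂μ‖ ^ 2} := by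
    refine measureReal_mono ?_ (measure_ne_top μ _)
    intro x hx
    exact pow_le_pow_left₀ hη.le (le_of_lt hx) 2
  have hη2 : 0 < η ^ 2 := by positivity
  rw [le_div_iff₀ hη2, mul_comm]
  exact (mul_le_mul_of_nonneg_left h3 hη2.le).trans h2

lemma variance_three_le {μ : Measure ℝ} (h : Inv23 μ) (N m : ℕ) (hN : 1 ≤ N)
    (S : ℝ) (hS : ∑ b ∈ range N, (1 - (b : ℝ) / N) * (cc μ 3 m b).re ≤ S) :
    ∫ x, ‖avg 1 N (fun y => e (m * y)) x - ∫ y, e (m * y) ∂μ‖ ^ 2 ∂μ ≤ 2 * S / N := by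
  rw [variance_three h N m hN]
  have h1 : ‖cf μ m‖ ≤ 1 := norm_cf_le h m
  have h2 : 0 ≤ 1 - ‖cf μ m‖ ^ 2 := by nlinarith [norm_nonneg (cf μ m)]
  gcongr
  linarith

lemma variance_two_le {μ : Measure ℝ} (h : Inv23 μ) (N m : ℕ) (hN : 1 ≤ N)
    (S : ℝ) (hS : ∑ b ∈ range N, (1 - (b : ℝ) / N) * (cc μ 2 m b).re ≤ S) :
    ∫ x, ‖avg N 1 (fun y => e (m * y)) x - ∫ y, e (m * y) ∂μ‖ ^ 2 ∂μ ≤ 2 * S / N := by
  rw [variance_two h N m hN]
  have h1 : ‖cf μ m‖ ≤ 1 := norm_cf_le h m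
  have h2 : 0 ≤ 1 - ‖cf μ m‖ ^ 2 := by nlinarith [norm_nonneg (cf μ m)]
  gcongr
  linarith

/-- Deviations along `×3` and `×2` in terms of the Cesàro sums of the correlations. -/
lemma dev_le_three {μ : Measure ℝ} (h : Inv23 μ) (N m : ℕ) (hN : 1 ≤ N) (η : ℝ) (hη : 0 < η)
    (S : ℝ) (hS : ∑ b ∈ range N, (1 - (b : ℝ) / N) * (cc μ 3 m b).re ≤ S) :
    μ.real (dev μ 1 N m η) ≤ 2 * S / N / η ^ 2 := by
  refine (cheb h 1 N m η hη).trans ?_
  rw [variance_three h N m hN]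
  have h1 : ‖cf μ m‖ ≤ 1 := norm_cf_le h m
  have h2 : 0 ≤ 1 - ‖cf μ m‖ ^ 2 := by nlinarith [norm_nonneg (cf μ m)]
  gcongr
  linarith

lemma dev_le_two {μ : Measure ℝ} (h : Inv23 μ) (N m : ℕ) (hN : 1 ≤ N) (η : ℝ) (hη : 0 < η)
    (S : ℝ) (hS : ∑ b ∈ range N, (1 - (b : ℝ) / N) * (cc μ 2 m b).re ≤ S) :
    μ.real (dev μ N 1 m η) ≤ 2 * S / N / η ^ 2 := by
  refine (cheb h N 1 m η hη).trans ?_
  rw [variance_two h N m hN]
  have h1 : ‖cf μ m‖ ≤ 1 := norm_cf_le h m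
  have h2 : 0 ≤ 1 - ‖cf μ m‖ ^ 2 := by nlinarith [norm_nonneg (cf μ m)]
  gcongr
  linarith

lemma cesaro_le (c : ℕ → ℂ) (N : ℕ) (hN : 1 ≤ N) :
    ∑ b ∈ range N, (1 - (b : ℝ) / N) * (c b).re ≤ ∑ b ∈ range N, ‖c b‖ := by
  refine sum_le_sum fun b hb => ?_
  have hp : (0 : ℝ) < N := by exact_mod_cast hN
  have hb' : (b : ℝ) ≤ N := by exact_mod_cast (mem_range.mp hb).le
  have h3 : 0 ≤ 1 - (b : ℝ) / N := by
    rw [sub_nonneg, div_le_one hp]; exact hb'
  have h4 : 1 - (b : ℝ) / N ≤ 1 := by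
    have : 0 ≤ (b : ℝ) / N := by positivity
    linarith
  calc (1 - (b : ℝ) / N) * (c b).re ≤ (1 - (b : ℝ) / N) * ‖c b‖ :=
        mul_le_mul_of_nonneg_left (Complex.re_le_norm _) h3
    _ ≤ 1 * ‖c b‖ := mul_le_mul_of_nonneg_right h4 (norm_nonneg _)
    _ = _ := one_mul _

/-- Cesàro sums of the real parts of the correlations bounded above by a power `< 1 / 2` of the
logarithm, along `×2` or along `×3`. -/
theorem cf_eq_zero_of_cesaro' {μ : Measure ℝ} (h : Inv23 μ) (h0 : ∀ x, μ {x} = 0) (g : ℕ)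
    (hg : g = 2 ∨ g = 3) (θ : ℝ) (hθ0 : 0 ≤ θ) (hθ : θ < 1 / 2)
    (hS : ∀ m : ℕ, 1 ≤ m → ∃ C : ℝ, ∀ N : ℕ, 1 ≤ N →
      ∑ b ∈ range N, (1 - (b : ℝ) / N) * (cc μ g m b).re ≤ C * Real.log (N + 1) ^ θ)
    (m : ℕ) (hm : 1 ≤ m) : cf μ m = 0 := by
  have e1 : cf μ m = ∫ y, e (m * y) ∂μ := by
    unfold cf
    simp
  rw [e1]
  rcases hg with rfl | rfl
  · refine Helper88.MR.core_tail_gen3 (γ := 5 / 4 + θ / 2) (by linarith) (by linarith)
      h h0 (fun m hm η hη => ?_) m hm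
    obtain ⟨C, hC⟩ := hS m hm
    have := summable_of_cesaro 3 (by norm_num) θ hθ0 hθ C η hη
      (fun q => μ.real (dev μ (3 ^ q) 1 m η)) (fun q => measureReal_nonneg) (fun q hq =>
        dev_le_two h (3 ^ q) m (Nat.one_le_pow _ _ (by norm_num)) η hη _
          (hC (3 ^ q) (Nat.one_le_pow _ _ (by norm_num))))
    simpa using this
  · refine Pool.Agent.Helper17.KW.core_tail_gen (γ := 5 / 4 + θ / 2) (by linarith) (by linarith)
      h h0 (fun m hm η hη => ?_) m hm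
    obtain ⟨C, hC⟩ := hS m hm
    have := summable_of_cesaro 2 (by norm_num) θ hθ0 hθ C η hη
      (fun q => μ.real (dev μ 1 (2 ^ q) m η)) (fun q => measureReal_nonneg) (fun q hq =>
        dev_le_three h (2 ^ q) m Nat.one_le_two_pow η hη _ (hC (2 ^ q) Nat.one_le_two_pow))
    simpa using this

theorem cf_eq_zero_of_cesaro {μ : Measure ℝ} (h : Inv23 μ) (h0 : ∀ x, μ {x} = 0) (g : ℕ)
    (hg : g = 2 ∨ g = 3) (θ : ℝ) (hθ : θ < 1 / 2)
    (hS : ∀ m : ℕ, 1 ≤ m → ∃ C : ℝ, ∀ N : ℕ, 1 ≤ N →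
      ∑ b ∈ range N, (1 - (b : ℝ) / N) * (cc μ g m b).re ≤ C * Real.log (N + 1) ^ θ)
    (m : ℕ) (hm : 1 ≤ m) : cf μ m = 0 := by
  refine cf_eq_zero_of_cesaro' h h0 g hg (max θ 0) (le_max_right _ _) (max_lt hθ (by norm_num))
    (fun m hm => ?_) m hm
  obtain ⟨C, hC⟩ := hS m hm
  refine ⟨|C| * 2 ^ (max θ 0 - θ), fun N hN => (hC N hN).trans ?_⟩
  obtain ⟨n, rfl⟩ : ∃ n, N = n + 1 := ⟨N - 1, by omega⟩
  have h6 : (((n + 1 : ℕ) : ℝ) + 1) = n + 2 := by push_cast; ring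
  rw [h6]
  have h7 := rpow_le_mul_rpow (half_le_log n) (le_max_left θ 0)
  have h8 : 0 ≤ Real.log (n + 2) ^ θ := Real.rpow_nonneg (by linarith [half_le_log n]) _
  calc C * Real.log (n + 2) ^ θ ≤ |C| * Real.log (n + 2) ^ θ :=
        mul_le_mul_of_nonneg_right (le_abs_self C) h8
    _ ≤ |C| * (2 ^ (max θ 0 - θ) * Real.log (n + 2) ^ max θ 0) :=
        mul_le_mul_of_nonneg_left h7 (abs_nonneg C)
    _ = _ := by ring

/-- Correlations along `×2` or `×3` which are summable with weights which are powers of exponent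
`> - 1 / 2` of the logarithm. -/
theorem cf_eq_zero_of_summable' {μ : Measure ℝ} (h : Inv23 μ) (h0 : ∀ x, μ {x} = 0) (g : ℕ)
    (hg : g = 2 ∨ g = 3) (θ : ℝ) (hθ0 : 0 < θ) (hθ : θ < 1 / 2)
    (hS : ∀ m : ℕ, 1 ≤ m → Summable fun b : ℕ => ‖cc μ g m b‖ / Real.log (b + 2) ^ θ)
    (m : ℕ) (hm : 1 ≤ m) : cf μ m = 0 := by
  have e1 : cf μ m = ∫ y, e (m * y) ∂μ := by
    unfold cf
    simp
  rw [e1]
  rcases hg with rfl | rfl
  · refine Helper88.MR.core_tail_gen3 (γ := 1 + θ) (by linarith) (by linarith)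
      h h0 (fun m hm η hη => ?_) m hm
    have := summable_of_corr 3 (by norm_num) θ hθ0 (by linarith) η hη (fun b => ‖cc μ 2 m b‖)
      (fun b => norm_nonneg _) (hS m hm)
      (fun q => μ.real (dev μ (3 ^ q) 1 m η)) (fun q => measureReal_nonneg) (fun q hq =>
        dev_le_two h (3 ^ q) m (Nat.one_le_pow _ _ (by norm_num)) η hη _
          (cesaro_le _ _ (Nat.one_le_pow _ _ (by norm_num))))
    simpa using this
  · refine Pool.Agent.Helper17.KW.core_tail_gen (γ := 1 + θ) (by linarith) (by linarith)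
      h h0 (fun m hm η hη => ?_) m hm
    have := summable_of_corr 2 (by norm_num) θ hθ0 (by linarith) η hη (fun b => ‖cc μ 3 m b‖)
      (fun b => norm_nonneg _) (hS m hm)
      (fun q => μ.real (dev μ 1 (2 ^ q) m η)) (fun q => measureReal_nonneg) (fun q hq =>
        dev_le_three h (2 ^ q) m Nat.one_le_two_pow η hη _ (cesaro_le _ _ Nat.one_le_two_pow))
    simpa using this

theorem cf_eq_zero_of_summable {μ : Measure ℝ} (h : Inv23 μ) (h0 : ∀ x, μ {x} = 0) (g : ℕ)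
    (hg : g = 2 ∨ g = 3) (θ : ℝ) (hθ : θ < 1 / 2)
    (hS : ∀ m : ℕ, 1 ≤ m → Summable fun b : ℕ => ‖cc μ g m b‖ / Real.log (b + 2) ^ θ)
    (m : ℕ) (hm : 1 ≤ m) : cf μ m = 0 :=
  cf_eq_zero_of_summable' h h0 g hg (max θ (1 / 4)) (lt_max_of_lt_right (by norm_num))
    (max_lt hθ (by norm_num)) (fun m hm => summable_log_mono (fun b => norm_nonneg _)
      (le_max_left _ _) (hS m hm)) m hm

end Pool.Agent.Helper61.DR
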