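import Mathlib
import Pool.Agent.Helper17.JR.St.J8

/-!
# The variance of a box average in terms of the spectral density
-/

set_option autoImplicit false

open MeasureTheory Finset Filter

namespace Pool.Agent.Helper17.JR

open Pool.Agent.Helper61.FR

lemma vd_kernel (M N : ℕ) (u v : ℝ) :
    ∑ i ∈ range M, ∑ k ∈ range N, ∑ i' ∈ range M, ∑ k' ∈ range N,
      e (((i : ℝ) - i') * u + ((k : ℝ) - k') * v) = ((J8F M u * J8F N v : ℝ) : ℂ) := by
  have h1 := fejer_eq M u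
  have h2 := fejer_eq N v
  unfold J8F
  rw [Complex.ofReal_mul, ← h1, ← h2, Finset.sum_mul]
  refine Finset.sum_congr rfl fun i _ => ?_
  rw [Finset.mul_sum]
  refine Finset.sum_congr rfl fun k _ => ?_
  rw [Finset.sum_mul_sum]
  refine Finset.sum_congr rfl fun i' _ => Finset.sum_congr rfl fun k' _ => ?_
  rw [e_add]

lemma vd_sum_eq {μ : Measure ℝ} {m : ℕ} {s C : ℝ} (hs1 : 1 < s) (hs2 : s < 2)
    {d : ℝ × ℝ → ℝ} (hdm : Measurable d) (hd0 : ∀ p, 0 ≤ d p)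
    (hd : ∀ p, p ≠ 0 → |p.1| ≤ 1 / 2 → |p.2| ≤ 1 / 2 → d p ≤ C * (|p.1| + |p.2|) ^ (-s))
    (hcz : ∀ a b : ℤ, cz μ m a b =
      ∫ p in Set.Icc (-(1 / 2) : ℝ) (1 / 2) ×ˢ Set.Icc (-(1 / 2) : ℝ) (1 / 2),
        (d p : ℂ) * e (a * p.1 + b * p.2)) (M N : ℕ) :
    ∑ i ∈ range M, ∑ k ∈ range N, ∑ i' ∈ range M, ∑ k' ∈ range N,
      cz μ m ((i : ℤ) - i') ((k : ℤ) - k') =
    ((∫ p in Set.Icc (-(1 / 2) : ℝ) (1 / 2) ×ˢ Set.Icc (-(1 / 2) : ℝ) (1 / 2),
      d p * (J8F M p.1 * J8F N p.2) : ℝ) : ℂ) := by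
  have hdi := J8_integrable_d hs1 hs2 hdm hd0 hd
  have hint : ∀ a b : ℝ, Integrable (fun p : ℝ × ℝ => (d p : ℂ) * e (a * p.1 + b * p.2))
      (volume.restrict (Set.Icc (-(1 / 2) : ℝ) (1 / 2) ×ˢ Set.Icc (-(1 / 2) : ℝ) (1 / 2))) := by
    intro a b
    refine Integrable.mul_bdd (c := 1) hdi.ofReal ?_ ?_
    · refine Continuous.aestronglyMeasurable ?_
      exact continuous_e.comp ((continuous_const.mul continuous_fst).add
        (continuous_const.mul continuous_snd))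
    · exact Filter.Eventually.of_forall fun p => (norm_e _).le
  have h1 : ∀ p : ℝ × ℝ, ((d p * (J8F M p.1 * J8F N p.2) : ℝ) : ℂ) =
      ∑ i ∈ range M, ∑ k ∈ range N, ∑ i' ∈ range M, ∑ k' ∈ range N,
      (d p : ℂ) * e (((i : ℝ) - i') * p.1 + ((k : ℝ) - k') * p.2) := by
    intro p
    rw [Complex.ofReal_mul, ← vd_kernel]
    simp only [Finset.mul_sum]
  rw [← integral_complex_ofReal]
  simp only [h1]
  rw [integral_finsetSum]
  swap
  · intro i _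
    exact integrable_finsetSum _ fun k _ => integrable_finsetSum _ fun i' _ =>
      integrable_finsetSum _ fun k' _ => hint _ _
  refine Finset.sum_congr rfl fun i _ => ?_
  rw [integral_finsetSum]
  swap
  · intro k _
    exact integrable_finsetSum _ fun i' _ => integrable_finsetSum _ fun k' _ => hint _ _
  refine Finset.sum_congr rfl fun k _ => ?_
  rw [integral_finsetSum]
  swap
  · intro i' _
    exact integrable_finsetSum _ fun k' _ => hint _ _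
  refine Finset.sum_congr rfl fun i' _ => ?_
  rw [integral_finsetSum]
  swap
  · intro k' _
    exact hint _ _
  refine Finset.sum_congr rfl fun k' _ => ?_
  rw [hcz]
  push_cast
  rfl

lemma var_dens {μ : Measure ℝ} (h : Inv23 μ) {m : ℕ} {s C : ℝ} (hs1 : 1 < s) (hs2 : s < 2)
    {d : ℝ × ℝ → ℝ} (hdm : Measurable d) (hd0 : ∀ p, 0 ≤ d p)
    (hd : ∀ p, p ≠ 0 → |p.1| ≤ 1 / 2 → |p.2| ≤ 1 / 2 → d p ≤ C * (|p.1| + |p.2|) ^ (-s))
    (hcz : ∀ a b : ℤ, cz μ m a b =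
      ∫ p in Set.Icc (-(1 / 2) : ℝ) (1 / 2) ×ˢ Set.Icc (-(1 / 2) : ℝ) (1 / 2),
        (d p : ℂ) * e (a * p.1 + b * p.2)) (M N : ℕ) (hM : 1 ≤ M) (hN : 1 ≤ N) :
    ∫ x, ‖avg M N (fun y => e (m * y)) x - ∫ y, e (m * y) ∂μ‖ ^ 2 ∂μ =
      (∫ p in Set.Icc (-(1 / 2) : ℝ) (1 / 2) ×ˢ Set.Icc (-(1 / 2) : ℝ) (1 / 2),
        d p * (J8F M p.1 * J8F N p.2)) / (M * N) ^ 2 := by
  have hM0 : (0 : ℝ) < M := by exact_mod_cast hM
  have hN0 : (0 : ℝ) < N := by exact_mod_cast hN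
  have h1 := congrArg Complex.re (vd_sum_eq hs1 hs2 hdm hd0 hd hcz M N)
  rw [Complex.ofReal_re] at h1
  simp only [Complex.re_sum] at h1
  rw [← h1, variance_eq h M N m hM hN]
  have h2 : ∀ i k i' k' : ℕ, (cf μ (m * (2 ^ i * 3 ^ k - 2 ^ i' * 3 ^ k'))).re =
      (cz μ m ((i : ℤ) - i') ((k : ℤ) - k')).re + ‖cf μ m‖ ^ 2 := by
    intro i k i' k'
    rw [← cz_eq h m i k i' k', Complex.sub_re, Complex.ofReal_re]
    ring
  simp only [h2, Finset.sum_add_distrib, Finset.sum_const, Finset.card_range, nsmul_eq_mul]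
  field_simp
  ring

end Pool.Agent.Helper17.JR
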