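import Mathlib
import Pool.Agent.Helper61.DR.VarDens
import Pool.Agent.Helper61.DR.Core

/-!
# Deviations from the spectral density
-/

set_option autoImplicit false

open MeasureTheory Finset Filter

namespace Pool.Agent.Helper17.JR

open Pool.Agent.Helper61.FR

lemma dens_mem_sq {p : ℝ × ℝ}
    (h : p ∈ Set.Icc (-(1 / 2) : ℝ) (1 / 2) ×ˢ Set.Icc (-(1 / 2) : ℝ) (1 / 2)) :
    |p.1| ≤ 1 / 2 ∧ |p.2| ≤ 1 / 2 := ⟨abs_le.2 ⟨h.1.1, h.1.2⟩, abs_le.2 ⟨h.2.1, h.2.2⟩⟩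

theorem tendsto_dev_dens_aux {μ : Measure ℝ} (h : Inv23 μ) (m : ℕ) (s C : ℝ) (hs1 : 1 < s)
    (hs2 : s < 2) (hD : Dens μ m s C) (η : ℝ) (hη : 0 < η) :
    Tendsto (fun q : ℕ => μ.real (dev μ (q / 200) (2 ^ q) m η)) atTop (nhds 0) := by
  have := h.prob
  obtain ⟨d, hdm, hd0, hd, hcz⟩ := hD
  have hdi := J8_integrable_d hs1 hs2 hdm hd0 hd
  obtain ⟨Q, hQ⟩ : ∃ Q : Set (ℝ × ℝ), Q = Set.Icc (-(1 / 2) : ℝ) (1 / 2) ×ˢ
    Set.Icc (-(1 / 2) : ℝ) (1 / 2) := ⟨_, rfl⟩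
  rw [← hQ] at hdi
  have hQm : MeasurableSet Q := by
    rw [hQ]
    exact measurableSet_Icc.prod measurableSet_Icc
  have hnn : ∀ (N : ℕ) (p : ℝ × ℝ), 0 ≤ J8F N p.2 / (N : ℝ) ^ 2 := fun N p =>
    div_nonneg (J8F_nonneg N p.2) (by positivity)
  have hle1 : ∀ (N : ℕ) (p : ℝ × ℝ), 1 ≤ N → J8F N p.2 / (N : ℝ) ^ 2 ≤ 1 := by
    intro N p hN
    have hN0 : (0 : ℝ) < N := by exact_mod_cast hN
    rw [div_le_one (by positivity)]
    exact J8F_le N p.2
  have hmeas : ∀ N : ℕ, AEStronglyMeasurable (fun p : ℝ × ℝ => d p * (J8F N p.2 / (N : ℝ) ^ 2))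
      (volume.restrict Q) := by
    intro N
    refine hdm.aestronglyMeasurable.mul ?_
    exact (((J8F_continuous N).comp continuous_snd).div_const _).aestronglyMeasurable
  have hbound : ∀ (N : ℕ), 1 ≤ N → ∀ p, ‖d p * (J8F N p.2 / (N : ℝ) ^ 2)‖ ≤ d p := by
    intro N hN p
    rw [Real.norm_of_nonneg (mul_nonneg (hd0 p) (hnn N p))]
    calc d p * (J8F N p.2 / (N : ℝ) ^ 2) ≤ d p * 1 :=
          mul_le_mul_of_nonneg_left (hle1 N p hN) (hd0 p)
      _ = d p := mul_one _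
  have hlim : Tendsto (fun q : ℕ => ∫ p in Q, d p * (J8F (2 ^ q) p.2 / ((2 ^ q : ℕ) : ℝ) ^ 2))
      atTop (nhds 0) := by
    have h0 : ∫ p in Q, (fun _ : ℝ × ℝ => (0 : ℝ)) p = 0 := by simp
    rw [← h0]
    refine tendsto_integral_of_dominated_convergence d (fun q => hmeas (2 ^ q)) hdi
      (fun q => Eventually.of_forall (hbound (2 ^ q) Nat.one_le_two_pow)) ?_
    rw [ae_restrict_iff' hQm]
    filter_upwards [J8_ae_ne] with p hp hpQ
    rw [hQ] at hpQ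
    obtain ⟨-, hp2⟩ := dens_mem_sq hpQ
    have hv : 0 < |p.2| := abs_pos.2 hp.2
    have h5 : Tendsto (fun q : ℕ => d p * ((1 / (2 * |p.2|)) ^ 2 * (1 / ((2 ^ q : ℕ) : ℝ)) ^ 2))
        atTop (nhds (d p * ((1 / (2 * |p.2|)) ^ 2 * 0 ^ 2))) := by
      refine Tendsto.const_mul _ (Tendsto.const_mul _ (Tendsto.pow ?_ 2))
      have h6 : Tendsto (fun q : ℕ => (2 : ℕ) ^ q) atTop atTop :=
        tendsto_pow_atTop_atTop_of_one_lt (by norm_num)
      exact (tendsto_one_div_atTop_nhds_zero_nat (𝕜 := ℝ)).comp h6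
    rw [zero_pow (by norm_num), mul_zero, mul_zero] at h5
    refine squeeze_zero (fun q => mul_nonneg (hd0 p) (hnn _ p)) (fun q => ?_) h5
    refine mul_le_mul_of_nonneg_left ?_ (hd0 p)
    have hN0 : (0 : ℝ) < ((2 ^ q : ℕ) : ℝ) := by positivity
    rw [one_div_pow ((2 ^ q : ℕ) : ℝ), mul_one_div]
    refine div_le_div_of_nonneg_right ?_ (by positivity)
    unfold J8F
    exact pow_le_pow_left₀ (norm_nonneg _) (sum_e_le (2 ^ q) p.2 hp2 hp.2) 2
  have hlim2 := hlim.div_const (η ^ 2)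
  rw [zero_div] at hlim2
  refine squeeze_zero' (Eventually.of_forall fun q => measureReal_nonneg) ?_ hlim2
  filter_upwards [eventually_ge_atTop 200] with q hq
  refine (Pool.Agent.Helper61.DR.cheb h (q / 200) (2 ^ q) m η hη).trans ?_
  refine div_le_div_of_nonneg_right ?_ (by positivity)
  have hM : 1 ≤ q / 200 := by omega
  have hM0 : (0 : ℝ) < ((q / 200 : ℕ) : ℝ) := by exact_mod_cast hM
  have hN0 : (0 : ℝ) < ((2 ^ q : ℕ) : ℝ) := by positivity
  rw [var_dens h hs1 hs2 hdm hd0 hd hcz (q / 200) (2 ^ q) hM Nat.one_le_two_pow, ← hQ,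
    ← integral_div]
  refine integral_mono_of_nonneg (Eventually.of_forall fun p => ?_) ?_
    (Eventually.of_forall fun p => ?_)
  · exact div_nonneg (mul_nonneg (hd0 p) (mul_nonneg (J8F_nonneg _ _) (J8F_nonneg _ _)))
      (by positivity)
  · exact Integrable.mono' hdi (hmeas (2 ^ q))
      (Eventually.of_forall (hbound (2 ^ q) Nat.one_le_two_pow))
  · show d p * (J8F (q / 200) p.1 * J8F (2 ^ q) p.2) / (((q / 200 : ℕ) : ℝ) * ((2 ^ q : ℕ) : ℝ)) ^ 2 ≤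
      d p * (J8F (2 ^ q) p.2 / ((2 ^ q : ℕ) : ℝ) ^ 2)
    rw [mul_div_assoc]
    refine mul_le_mul_of_nonneg_left ?_ (hd0 p)
    rw [mul_pow, div_le_div_iff₀ (by positivity) (by positivity)]
    have h7 := J8F_le (q / 200) p.1
    have h8 := J8F_nonneg (2 ^ q) p.2
    have h9 : 0 ≤ J8F (2 ^ q) p.2 * ((2 ^ q : ℕ) : ℝ) ^ 2 := by positivity
    nlinarith [mul_le_mul_of_nonneg_right h7 h9]

theorem root_dens_aux {μ : Measure ℝ} (h : Inv23 μ) (m : ℕ) (s C : ℝ) (hs1 : 1 < s) (hs2 : s < 2)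
    (hD : Dens μ m s C) (η : ℝ) (hη : 0 < η) :
    Summable fun q : ℕ => μ.real (dev μ (2 ^ q) (2 ^ q) m η) := by
  have := h.prob
  obtain ⟨d, hdm, hd0, hd, hcz⟩ := hD
  have hC := J8_C_nonneg hd0 hd
  obtain ⟨C₁, hC₁, hF⟩ := fejer_rpow_integral s hs1 hs2
  obtain ⟨Q, hQ⟩ : ∃ Q : Set (ℝ × ℝ), Q = Set.Icc (-(1 / 2) : ℝ) (1 / 2) ×ˢ
    Set.Icc (-(1 / 2) : ℝ) (1 / 2) := ⟨_, rfl⟩
  have hQm : MeasurableSet Q := by
    rw [hQ]
    exact measurableSet_Icc.prod measurableSet_Icc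
  have hvar : ∀ q : ℕ, ∫ x, ‖avg (2 ^ q) (2 ^ q) (fun y => e (m * y)) x -
      ∫ y, e (m * y) ∂μ‖ ^ 2 ∂μ ≤ C * C₁ * ((2 : ℝ) ^ (s - 2)) ^ q := by
    intro q
    have hN0 : (0 : ℝ) < ((2 ^ q : ℕ) : ℝ) := by positivity
    rw [var_dens h hs1 hs2 hdm hd0 hd hcz (2 ^ q) (2 ^ q) Nat.one_le_two_pow Nat.one_le_two_pow]
    have h1 : ∫ p in Set.Icc (-(1 / 2) : ℝ) (1 / 2) ×ˢ Set.Icc (-(1 / 2) : ℝ) (1 / 2),
        d p * (J8F (2 ^ q) p.1 * J8F (2 ^ q) p.2) ≤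
        C * ∫ p in Set.Icc (-(1 / 2) : ℝ) (1 / 2) ×ˢ Set.Icc (-(1 / 2) : ℝ) (1 / 2),
        ‖∑ k ∈ range (2 ^ q), e (k * p.1)‖ ^ 2 * ‖∑ k ∈ range (2 ^ q), e (k * p.2)‖ ^ 2 *
          (|p.1| + |p.2|) ^ (-s) := by
      rw [← integral_const_mul, ← hQ]
      refine integral_mono_of_nonneg (Eventually.of_forall fun p => ?_) ?_ ?_
      · exact mul_nonneg (hd0 p) (mul_nonneg (J8F_nonneg _ _) (J8F_nonneg _ _))
      · -- integrability of the majorant
        have hr := J8_int_abs_rpow (-(s / 2)) (by linarith)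
        have h2 : Integrable (fun p : ℝ × ℝ => |p.1| ^ (-(s / 2)) * |p.2| ^ (-(s / 2)))
            ((volume.restrict (Set.Icc (-(1 / 2) : ℝ) (1 / 2))).prod
              (volume.restrict (Set.Icc (-(1 / 2) : ℝ) (1 / 2)))) := Integrable.mul_prod hr hr
        rw [Measure.prod_restrict, ← Measure.volume_eq_prod, ← hQ] at h2
        have h3 := h2.const_mul (C * ((((2 ^ q : ℕ) : ℝ) ^ 2) * (((2 ^ q : ℕ) : ℝ) ^ 2)))
        refine Integrable.mono' h3 ?_ ?_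
        · refine AEStronglyMeasurable.const_mul ?_ C
          refine Measurable.aestronglyMeasurable ?_
          refine Measurable.mul ?_ ?_
          · exact (((J8F_continuous (2 ^ q)).comp continuous_fst).mul
              ((J8F_continuous (2 ^ q)).comp continuous_snd)).measurable
          · exact ((measurable_fst.abs.add measurable_snd.abs).pow_const (-s))
        · filter_upwards [ae_restrict_of_ae J8_ae_ne] with p hp
          have hnn : 0 ≤ ‖∑ k ∈ range (2 ^ q), e (k * p.1)‖ ^ 2 *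
              ‖∑ k ∈ range (2 ^ q), e (k * p.2)‖ ^ 2 * (|p.1| + |p.2|) ^ (-s) := by positivity
          rw [Real.norm_of_nonneg (mul_nonneg hC hnn), mul_assoc C]
          refine mul_le_mul_of_nonneg_left ?_ hC
          refine mul_le_mul ?_ (J8_rpow_le s p.1 p.2 (by linarith) hp.1 hp.2) (by positivity)
            (by positivity)
          exact mul_le_mul (J8F_le (2 ^ q) p.1) (J8F_le (2 ^ q) p.2) (J8F_nonneg _ _)
            (by positivity)
      · rw [EventuallyLE, ae_restrict_iff' hQm]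
        filter_upwards [J8_ae_ne] with p hp hpQ
        rw [hQ] at hpQ
        obtain ⟨hp1, hp2⟩ := dens_mem_sq hpQ
        have h4 := hd p (by
          intro h0
          rw [h0] at hp
          exact hp.1 rfl) hp1 hp2
        have h5 : 0 ≤ J8F (2 ^ q) p.1 * J8F (2 ^ q) p.2 := mul_nonneg (J8F_nonneg _ _) (J8F_nonneg _ _)
        calc d p * (J8F (2 ^ q) p.1 * J8F (2 ^ q) p.2) ≤
              (C * (|p.1| + |p.2|) ^ (-s)) * (J8F (2 ^ q) p.1 * J8F (2 ^ q) p.2) :=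
              mul_le_mul_of_nonneg_right h4 h5
          _ = C * (J8F (2 ^ q) p.1 * J8F (2 ^ q) p.2 * (|p.1| + |p.2|) ^ (-s)) := by ring
    have h2 := h1.trans (mul_le_mul_of_nonneg_left (hF (2 ^ q) Nat.one_le_two_pow) hC)
    rw [div_le_iff₀ (by positivity)]
    refine h2.trans (le_of_eq ?_)
    have h3 : ((2 ^ q : ℕ) : ℝ) ^ (2 + s) = ((2 : ℝ) ^ (s - 2)) ^ q *
        (((2 ^ q : ℕ) : ℝ) * ((2 ^ q : ℕ) : ℝ)) ^ 2 := by
      push_cast
      rw [← Real.rpow_natCast 2 q, ← Real.rpow_natCast (2 ^ (s - 2)) q,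
        ← Real.rpow_mul (by norm_num), ← Real.rpow_mul (by norm_num),
        ← Real.rpow_add (by norm_num), ← Real.rpow_natCast _ 2, ← Real.rpow_mul (by norm_num),
        ← Real.rpow_add (by norm_num)]
      congr 1
      push_cast
      ring
    rw [h3]
    ring
  have hr1 : (2 : ℝ) ^ (s - 2) < 1 := Real.rpow_lt_one_of_one_lt_of_neg (by norm_num) (by linarith)
  have hgeo := (summable_geometric_of_lt_one (by positivity : (0 : ℝ) ≤ (2 : ℝ) ^ (s - 2)) hr1).mul_left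
    (C * C₁ / η ^ 2)
  refine Summable.of_nonneg_of_le (fun q => measureReal_nonneg) (fun q => ?_) hgeo
  refine (Pool.Agent.Helper61.DR.cheb h (2 ^ q) (2 ^ q) m η hη).trans ?_
  calc _ ≤ (C * C₁ * ((2 : ℝ) ^ (s - 2)) ^ q) / η ^ 2 :=
        div_le_div_of_nonneg_right (hvar q) (by positivity)
    _ = _ := by ring

end Pool.Agent.Helper17.JR
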