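import Mathlib
import Pool.Agent.Helper61.DR.Weights

/-!
# Weighted complete convergence along all `N` and along the powers of `B`
-/

set_option autoImplicit false

open Finset Filter

namespace Pool.Agent.Helper61.DR

/-- A series over all `N` controls the series over the powers of `B`. -/
lemma summable_pow_of_summable (B : ℕ) (hB : 2 ≤ B) (γ : ℝ) (hγ : 0 ≤ γ) (η : ℝ) (hη : 0 < η)
    (P P' : ℕ → ℝ) (hP0 : ∀ N, 0 ≤ P N) (hP0' : ∀ N, 0 ≤ P' N)
    (hPP : ∀ N N' : ℕ, 1 ≤ N → N ≤ N' → (N' : ℝ) ≤ (1 + η / 4) * N → P N ≤ P' N')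
    (hs : Summable fun N : ℕ => P' N / Real.log (N + 2) ^ γ) :
    Summable fun q : ℕ => ((B : ℝ) ^ q / (q : ℝ) ^ γ) * P (B ^ q) := by
  classical
  have hBr : (2 : ℝ) ≤ B := by exact_mod_cast hB
  have hlB : 0 < Real.log B := Real.log_pos (by linarith)
  set ε : ℝ := min (η / 4) (1 / 2) with hε
  have hε0 : 0 < ε := by rw [hε]; exact lt_min (by positivity) (by norm_num)
  -- number of the `N` in the block
  set n : ℕ → ℕ := fun q => ⌊ε * (B : ℝ) ^ q⌋₊ + 1 with hn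
  have hnge : ∀ q, ε * (B : ℝ) ^ q ≤ n q := by
    intro q
    rw [hn]
    push_cast
    exact (Nat.lt_floor_add_one _).le
  -- the blocks
  set I : ℕ → Finset ℕ := fun q => Ico (B ^ q) (B ^ q + n q) with hI
  have hIlt : ∀ q, 1 ≤ q → ∀ N ∈ I q, N < B ^ (q + 1) := by
    intro q hq N hN
    rw [hI, mem_Ico] at hN
    have h1 : (⌊ε * (B : ℝ) ^ q⌋₊ : ℝ) ≤ 1 / 2 * (B : ℝ) ^ q := by
      refine (Nat.floor_le (by positivity)).trans ?_
      gcongr
      exact min_le_right _ _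
    have h2 : 2 * ⌊ε * (B : ℝ) ^ q⌋₊ ≤ B ^ q := by
      have h3 : (2 : ℝ) * ⌊ε * (B : ℝ) ^ q⌋₊ ≤ (B : ℝ) ^ q := by linarith
      exact_mod_cast h3
    have h3 : 2 ≤ B ^ q := by
      calc 2 ≤ B := hB
        _ = B ^ 1 := (pow_one B).symm
        _ ≤ B ^ q := Nat.pow_le_pow_right (by omega) hq
    have h4 : 2 * B ^ q ≤ B ^ (q + 1) := by rw [pow_succ, mul_comm]; exact Nat.mul_le_mul_left _ hB
    have h5 : n q = ⌊ε * (B : ℝ) ^ q⌋₊ + 1 := rfl
    omega
  have hterm : ∀ q : ℕ, 1 ≤ q → ((B : ℝ) ^ q / (q : ℝ) ^ γ) * P (B ^ q) ≤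
      ((3 * Real.log B) ^ γ / ε) * ∑ N ∈ I q, P' N / Real.log (N + 2) ^ γ := by
    intro q hq
    have hq0 : (0 : ℝ) < q := by exact_mod_cast hq
    have hqγ : 0 < (q : ℝ) ^ γ := Real.rpow_pos_of_pos hq0 γ
    have hBq : (1 : ℝ) ≤ (B : ℝ) ^ q := one_le_pow₀ (by linarith)
    have h1 : ∀ N ∈ I q, P (B ^ q) / ((3 * Real.log B) ^ γ * (q : ℝ) ^ γ) ≤
        P' N / Real.log (N + 2) ^ γ := by
      intro N hN
      have hN1 := hIlt q hq N hN
      have hN2 := hN
      rw [hI, mem_Ico] at hN2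
      have hlogN : 0 < Real.log (N + 2) := Real.log_pos (by
        have : (0 : ℝ) ≤ N := Nat.cast_nonneg _
        linarith)
      have h2 : Real.log (N + 2) ≤ 3 * Real.log B * q := by
        have h3 : ((N : ℝ) + 2) ≤ (B : ℝ) ^ (3 * q) := by
          have h4 : N + 2 ≤ B ^ (3 * q) := by
            have h5 : B ^ (3 * q) = B ^ (q + 1) * B ^ (2 * q - 1) := by
              rw [← pow_add]; congr 1; omega
            have h6 : 2 ≤ B ^ (2 * q - 1) := by
              calc 2 ≤ B := hB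
                _ = B ^ 1 := (pow_one B).symm
                _ ≤ B ^ (2 * q - 1) := Nat.pow_le_pow_right (by omega) (by omega)
            have h7 : 2 ≤ B ^ (q + 1) := by
              calc 2 ≤ B := hB
                _ = B ^ 1 := (pow_one B).symm
                _ ≤ B ^ (q + 1) := Nat.pow_le_pow_right (by omega) (by omega)
            rw [h5]
            nlinarith
          exact_mod_cast h4
        have h5 := Real.log_le_log (by positivity) h3
        rw [Real.log_pow] at h5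
        refine h5.trans (le_of_eq ?_)
        push_cast
        ring
      have h3 : Real.log (N + 2) ^ γ ≤ (3 * Real.log B) ^ γ * (q : ℝ) ^ γ := by
        rw [← Real.mul_rpow (by positivity) hq0.le]
        exact Real.rpow_le_rpow hlogN.le h2 hγ
      have h4 : P (B ^ q) ≤ P' N := by
        refine hPP _ _ (Nat.one_le_pow _ _ (by omega)) hN2.1 ?_
        have h5 : N ≤ B ^ q + ⌊ε * (B : ℝ) ^ q⌋₊ := by
          have : n q = ⌊ε * (B : ℝ) ^ q⌋₊ + 1 := rfl
          omega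
        have h6 : (N : ℝ) ≤ (B : ℝ) ^ q + ⌊ε * (B : ℝ) ^ q⌋₊ := by exact_mod_cast h5
        have h7 : (⌊ε * (B : ℝ) ^ q⌋₊ : ℝ) ≤ η / 4 * (B : ℝ) ^ q := by
          refine (Nat.floor_le (by positivity)).trans ?_
          gcongr
          exact min_le_left _ _
        push_cast
        linarith
      have h5 : 0 < Real.log (N + 2) ^ γ := Real.rpow_pos_of_pos hlogN γ
      exact div_le_div₀ (hP0' N) h4 h5 h3
    have h2 : (n q : ℝ) * (P (B ^ q) / ((3 * Real.log B) ^ γ * (q : ℝ) ^ γ)) ≤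
        ∑ N ∈ I q, P' N / Real.log (N + 2) ^ γ := by
      have h3 := Finset.card_nsmul_le_sum (I q) (fun N => P' N / Real.log (N + 2) ^ γ) _ h1
      rw [nsmul_eq_mul] at h3
      have h4 : (I q).card = n q := by rw [hI]; simp
      rw [h4] at h3
      exact h3
    have hK : 0 < (3 * Real.log B) ^ γ := Real.rpow_pos_of_pos (by positivity) γ
    calc ((B : ℝ) ^ q / (q : ℝ) ^ γ) * P (B ^ q)
        = ((3 * Real.log B) ^ γ / ε) * ((ε * (B : ℝ) ^ q) *
            (P (B ^ q) / ((3 * Real.log B) ^ γ * (q : ℝ) ^ γ))) := by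
          field_simp
      _ ≤ ((3 * Real.log B) ^ γ / ε) * ((n q : ℝ) *
            (P (B ^ q) / ((3 * Real.log B) ^ γ * (q : ℝ) ^ γ))) := by
          apply mul_le_mul_of_nonneg_left _ (by positivity)
          apply mul_le_mul_of_nonneg_right (hnge q)
          exact div_nonneg (hP0 _) (by positivity)
      _ ≤ _ := mul_le_mul_of_nonneg_left h2 (by positivity)
  have hdisj : ∀ q q' : ℕ, 1 ≤ q → q < q' → Disjoint (I q) (I q') := by
    intro q q' hq hqq
    rw [Finset.disjoint_left]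
    intro N hN hN'
    have h1 := hIlt q hq N hN
    rw [hI, mem_Ico] at hN'
    have h2 : B ^ (q + 1) ≤ B ^ q' := Nat.pow_le_pow_right (by omega) (by omega)
    omega
  rw [← summable_nat_add_iff 1]
  have hK : 0 < (3 * Real.log B) ^ γ := Real.rpow_pos_of_pos (by positivity) γ
  have hnn : ∀ N : ℕ, 0 ≤ P' N / Real.log (N + 2) ^ γ := fun N =>
    div_nonneg (hP0' N) (Real.rpow_nonneg (Real.log_nonneg (by
      have : (0 : ℝ) ≤ N := Nat.cast_nonneg _
      linarith)) γ)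
  apply summable_of_sum_range_le
    (c := ((3 * Real.log B) ^ γ / ε) * ∑' N : ℕ, P' N / Real.log (N + 2) ^ γ)
  · intro q
    exact mul_nonneg (by positivity) (hP0 _)
  intro Q
  calc ∑ q ∈ range Q, ((B : ℝ) ^ (q + 1) / ((q + 1 : ℕ) : ℝ) ^ γ) * P (B ^ (q + 1))
      ≤ ∑ q ∈ range Q, ((3 * Real.log B) ^ γ / ε) *
          ∑ N ∈ I (q + 1), P' N / Real.log (N + 2) ^ γ :=
        sum_le_sum fun q _ => hterm (q + 1) (by omega)
    _ = ((3 * Real.log B) ^ γ / ε) *
          ∑ N ∈ (range Q).biUnion (fun q => I (q + 1)), P' N / Real.log (N + 2) ^ γ := by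
        rw [← mul_sum, sum_biUnion]
        intro a _ b _ hab
        rcases Nat.lt_or_gt_of_ne hab with h | h
        · exact hdisj _ _ (by omega) (by omega)
        · exact (hdisj _ _ (by omega) (by omega)).symm
    _ ≤ _ := mul_le_mul_of_nonneg_left (hs.sum_le_tsum _ fun N _ => hnn N) (by positivity)

lemma summable_inv_mul_log (δ : ℝ) (hδ : 1 < δ) :
    Summable fun N : ℕ => ((N : ℝ) + 1)⁻¹ * (Real.log (N + 2) ^ δ)⁻¹ := by
  have hl : ∀ N : ℕ, 0 < Real.log (N + 2) := fun N => Real.log_pos (by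
    have : (0 : ℝ) ≤ N := Nat.cast_nonneg _
    linarith)
  have hlp : ∀ N : ℕ, 0 < Real.log (N + 2) ^ δ := fun N => Real.rpow_pos_of_pos (hl N) δ
  rw [← summable_condensed_iff_of_nonneg (fun N => by have := hlp N; positivity)]
  · rw [← summable_nat_add_iff 1]
    have hl2 : 0 < Real.log 2 := Real.log_pos (by norm_num)
    have hs : Summable fun k : ℕ => (Real.log 2 ^ δ)⁻¹ * (((k + 1 : ℕ) : ℝ) ^ δ)⁻¹ := by
      apply Summable.mul_left
      exact (summable_nat_add_iff 1).mpr (Real.summable_nat_rpow_inv.mpr hδ)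
    refine Summable.of_nonneg_of_le (fun k => ?_) (fun k => ?_) hs
    · have := hlp (2 ^ (k + 1))
      positivity
    · have h1 : 0 < Real.log (((2 ^ (k + 1) : ℕ) : ℝ) + 2) ^ δ := hlp (2 ^ (k + 1))
      have h2 : Real.log 2 ^ δ * ((k + 1 : ℕ) : ℝ) ^ δ ≤
          Real.log (((2 ^ (k + 1) : ℕ) : ℝ) + 2) ^ δ := by
        rw [← Real.mul_rpow hl2.le (by positivity)]
        apply Real.rpow_le_rpow (by positivity) _ (by linarith)
        have h3 : (2 : ℝ) ^ (k + 1) ≤ ((2 ^ (k + 1) : ℕ) : ℝ) + 2 := by push_cast; linarith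
        have h4 := Real.log_le_log (by positivity) h3
        rw [Real.log_pow] at h4
        linarith
      rw [← mul_inv (Real.log 2 ^ δ)]
      have h3 : (2 : ℝ) ^ (k + 1) * ((((2 ^ (k + 1) : ℕ) : ℝ) + 1)⁻¹ *
          (Real.log (((2 ^ (k + 1) : ℕ) : ℝ) + 2) ^ δ)⁻¹) ≤
          1 * (Real.log (((2 ^ (k + 1) : ℕ) : ℝ) + 2) ^ δ)⁻¹ := by
        rw [← mul_assoc]
        apply mul_le_mul_of_nonneg_right _ (by positivity)
        rw [← div_eq_mul_inv, div_le_one (by positivity)]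
        push_cast
        linarith
      rw [one_mul] at h3
      refine h3.trans ?_
      apply inv_anti₀ _ h2
      have : (0 : ℝ) < ((k + 1 : ℕ) : ℝ) := by positivity
      positivity
  · intro m n hm hmn
    have hmn' : (m : ℝ) ≤ n := by exact_mod_cast hmn
    have hm0 : (0 : ℝ) ≤ m := Nat.cast_nonneg _
    have h1 : Real.log (m + 2) ^ δ ≤ Real.log (n + 2) ^ δ :=
      Real.rpow_le_rpow (hl m).le (Real.log_le_log (by linarith) (by linarith)) (by linarith)
    have h2 := hlp m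
    have h3 := hlp n
    gcongr

/-- rates `log N ^ θ / N`, `θ < 1 / 2`, give convergent weighted series -/
lemma summable_of_rate (θ : ℝ) (hθ : θ < 1 / 2) (C : ℝ) (P : ℕ → ℝ) (hP0 : ∀ N, 0 ≤ P N)
    (hP : ∀ N : ℕ, 1 ≤ N → P N ≤ C * Real.log (N + 1) ^ θ / N) :
    Summable fun N : ℕ => P N / Real.log (N + 2) ^ (5 / 4 + max θ 0 / 2) := by
  set θ' : ℝ := max θ 0 with hθ'
  have h0 : 0 ≤ θ' := le_max_right _ _
  have h1 : θ' < 1 / 2 := max_lt hθ (by norm_num)
  have hl : ∀ N : ℕ, 0 < Real.log (N + 2) := fun N => Real.log_pos (by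
    have : (0 : ℝ) ≤ N := Nat.cast_nonneg _
    linarith)
  have hs := (summable_inv_mul_log (5 / 4 - θ' / 2) (by linarith)).mul_left
    (2 * |C| * 2 ^ (θ' - θ))
  rw [← summable_nat_add_iff 1] at hs ⊢
  refine Summable.of_nonneg_of_le (fun n => ?_) (fun n => ?_) hs
  · exact div_nonneg (hP0 _) (Real.rpow_nonneg (hl _).le _)
  have hn0 : (0 : ℝ) ≤ n := Nat.cast_nonneg _
  have h2 := hP (n + 1) (by omega)
  have e1 : (((n + 1 : ℕ) : ℝ) + 1) = (n : ℝ) + 2 := by push_cast; ring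
  rw [e1] at h2
  have h3 := rpow_le_mul_rpow (half_le_log n) (le_max_left θ 0)
  rw [← hθ'] at h3
  set x : ℝ := Real.log (((n + 1 : ℕ) : ℝ) + 2) with hx
  have hx0 : 0 < x := hl (n + 1)
  have h4 : Real.log ((n : ℝ) + 2) ^ θ' ≤ x ^ θ' := by
    apply Real.rpow_le_rpow (hl n).le _ h0
    rw [hx]
    apply Real.log_le_log (by linarith)
    push_cast
    linarith
  have h5 : (0 : ℝ) < ((n + 1 : ℕ) : ℝ) := by positivity
  have h6 : P (n + 1) ≤ |C| * (2 ^ (θ' - θ) * x ^ θ') / ((n + 1 : ℕ) : ℝ) := by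
    refine h2.trans (div_le_div_of_nonneg_right ?_ h5.le)
    have h7 : 0 ≤ Real.log ((n : ℝ) + 2) ^ θ := Real.rpow_nonneg (hl n).le θ
    calc C * Real.log ((n : ℝ) + 2) ^ θ ≤ |C| * Real.log ((n : ℝ) + 2) ^ θ :=
          mul_le_mul_of_nonneg_right (le_abs_self C) h7
      _ ≤ |C| * (2 ^ (θ' - θ) * Real.log ((n : ℝ) + 2) ^ θ') :=
          mul_le_mul_of_nonneg_left h3 (abs_nonneg C)
      _ ≤ _ := by gcongr
  have hxp : 0 < x ^ (5 / 4 + θ' / 2) := Real.rpow_pos_of_pos hx0 _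
  have e2 : x ^ θ' / x ^ (5 / 4 + θ' / 2) = (x ^ (5 / 4 - θ' / 2))⁻¹ := by
    rw [← Real.rpow_sub hx0, ← Real.rpow_neg hx0.le]
    congr 1
    ring
  have h7 : (((n + 1 : ℕ) : ℝ))⁻¹ ≤ 2 * (((n + 1 : ℕ) : ℝ) + 1)⁻¹ := by
    rw [← div_eq_mul_inv, inv_eq_one_div, div_le_div_iff₀ h5 (by positivity)]
    push_cast
    linarith
  calc P (n + 1) / x ^ (5 / 4 + θ' / 2)
      ≤ (|C| * (2 ^ (θ' - θ) * x ^ θ') / ((n + 1 : ℕ) : ℝ)) / x ^ (5 / 4 + θ' / 2) := by gcongr
    _ = |C| * 2 ^ (θ' - θ) * (x ^ θ' / x ^ (5 / 4 + θ' / 2)) * (((n + 1 : ℕ) : ℝ))⁻¹ := by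
        field_simp
    _ ≤ |C| * 2 ^ (θ' - θ) * (x ^ θ' / x ^ (5 / 4 + θ' / 2)) *
          (2 * (((n + 1 : ℕ) : ℝ) + 1)⁻¹) := by gcongr
    _ = 2 * |C| * 2 ^ (θ' - θ) * ((((n + 1 : ℕ) : ℝ) + 1)⁻¹ * (x ^ (5 / 4 - θ' / 2))⁻¹) := by
        rw [e2]
        ring

end Pool.Agent.Helper61.DR
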