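import Mathlib
import Pool.Agent.Helper61.FR.Circle
import Pool.Agent.Helper61.DR.Complete
import Pool.Agent.Helper88.MR.Core3

/-!
# Complete convergence of the averages along `×2` or `×3` on the circle
-/

set_option autoImplicit false

open MeasureTheory Finset Filter

namespace Pool.Agent.Helper61.DR

open Pool.Agent.Helper61.FR (cf cavg exists_inv23 real_dev_eq integral_var_eq integral_fourier_eq
  dev avg e Inv23)

/-- average of the character `x ↦ e^{2 π i m x}` over the points `g ^ k x`, `k < N` -/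
noncomputable def oavg (g N : ℕ) (m : ℤ) (x : AddCircle (1 : ℝ)) : ℂ :=
  (∑ k ∈ range N, (fourier (m * (g : ℤ) ^ k) x : ℂ)) / N

lemma oavg_three (N : ℕ) (m : ℤ) : oavg 3 N m = cavg 1 N m := by
  funext x
  unfold oavg cavg
  rw [sum_range_one]
  simp

lemma oavg_two (N : ℕ) (m : ℤ) : oavg 2 N m = cavg N 1 m := by
  funext x
  unfold oavg cavg
  simp

lemma continuous_oavg (g N : ℕ) (m : ℤ) : Continuous (oavg g N m) := by
  unfold oavg
  fun_prop

lemma oavg_close (g N N' : ℕ) (m : ℤ) (hN : 1 ≤ N) (h : N ≤ N') (x : AddCircle (1 : ℝ)) :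
    ‖oavg g N' m x - oavg g N m x‖ ≤ 2 * ((N' : ℝ) - N) / N := by
  obtain ⟨r, rfl⟩ := Nat.exists_eq_add_of_le h
  have hN0 : (0 : ℝ) < N := by exact_mod_cast hN
  have hr0 : (0 : ℝ) ≤ r := Nat.cast_nonneg r
  have hf : ∀ k : ℕ, ‖(fourier (m * (g : ℤ) ^ k) x : ℂ)‖ = 1 := fun k => by
    rw [fourier_apply]; exact Circle.norm_coe _
  set S : ℂ := ∑ k ∈ range N, (fourier (m * (g : ℤ) ^ k) x : ℂ) with hS
  set R : ℂ := ∑ k ∈ range r, (fourier (m * (g : ℤ) ^ (N + k)) x : ℂ) with hR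
  have hSn : ‖S‖ ≤ N := by
    refine (norm_sum_le _ _).trans ?_
    rw [sum_congr rfl fun k _ => hf k]
    simp
  have hRn : ‖R‖ ≤ r := by
    refine (norm_sum_le _ _).trans ?_
    rw [sum_congr rfl fun k _ => hf (N + k)]
    simp
  have e1 : oavg g (N + r) m x - oavg g N m x =
      R / ((N : ℂ) + r) - S * (r / (N * ((N : ℂ) + r))) := by
    unfold oavg
    rw [sum_range_add, ← hS, ← hR]
    have h1 : (N : ℂ) ≠ 0 := by exact_mod_cast (by omega : N ≠ 0)
    have h2 : ((N : ℂ) + r) ≠ 0 := by exact_mod_cast (by omega : N + r ≠ 0)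
    push_cast
    field_simp
    ring
  rw [e1]
  have n1 : ‖((N : ℂ) + r)‖ = (N : ℝ) + r := by
    have : ((N : ℂ) + r) = (((N : ℝ) + r : ℝ) : ℂ) := by push_cast; ring
    rw [this, Complex.norm_real, Real.norm_of_nonneg (by positivity)]
  have h1 : ‖R / ((N : ℂ) + r)‖ ≤ r / N := by
    rw [norm_div, n1]
    apply div_le_div₀ hr0 hRn hN0
    linarith
  have h2 : ‖S * (r / (N * ((N : ℂ) + r)))‖ ≤ r / N := by
    rw [norm_mul, norm_div, norm_mul, n1, Complex.norm_natCast, Complex.norm_natCast]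
    calc ‖S‖ * (r / (N * ((N : ℝ) + r))) ≤ N * (r / (N * ((N : ℝ) + r))) := by gcongr
      _ = r / ((N : ℝ) + r) := by field_simp
      _ ≤ r / N := by
          apply div_le_div_of_nonneg_left hr0 hN0
          linarith
  refine (norm_sub_le _ _).trans ?_
  calc _ ≤ r / N + (r / N : ℝ) := add_le_add h1 h2
    _ = _ := by push_cast; ring

section

variable {ν : Measure (AddCircle (1 : ℝ))} [IsProbabilityMeasure ν]

lemma real_odev_mono (g N N' : ℕ) (m : ℤ) (c : ℂ) (η : ℝ) (hN : 1 ≤ N) (h : N ≤ N')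
    (h' : (N' : ℝ) ≤ (1 + η / 4) * N) :
    ν.real {x | η < ‖oavg g N m x - c‖} ≤ ν.real {x | η / 2 < ‖oavg g N' m x - c‖} := by
  refine measureReal_mono ?_
  intro x hx
  have hx' : η < ‖oavg g N m x - c‖ := hx
  show η / 2 < ‖oavg g N' m x - c‖
  have hN0 : (0 : ℝ) < N := by exact_mod_cast hN
  have h1 := oavg_close g N N' m hN h x
  have h2 : 2 * ((N' : ℝ) - N) / N ≤ η / 2 := by
    rw [div_le_iff₀ hN0]
    nlinarith
  have h3 : ‖oavg g N m x - c‖ ≤ ‖oavg g N' m x - c‖ + ‖oavg g N' m x - oavg g N m x‖ := by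
    have : oavg g N m x - c = (oavg g N' m x - c) - (oavg g N' m x - oavg g N m x) := by ring
    rw [this]
    exact norm_sub_le _ _
  linarith

/-- **Complete convergence rigidity.** -/
theorem circle_series
    (h2 : MeasurePreserving (fun x : AddCircle (1 : ℝ) => (2 : ℕ) • x) ν ν)
    (h3 : MeasurePreserving (fun x : AddCircle (1 : ℝ) => (3 : ℕ) • x) ν ν)
    (h0 : ∀ x, ν {x} = 0) (g : ℕ) (hg : g = 2 ∨ g = 3) (γ : ℝ) (hγ : γ < 3 / 2)
    (hW : ∀ m : ℕ, 1 ≤ m → ∀ η : ℝ, 0 < η → Summable fun N : ℕ =>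
      ν.real {x | η < ‖oavg g N m x - ∫ y, (fourier m y : ℂ) ∂ν‖} / Real.log (N + 2) ^ γ)
    (m : ℕ) (hm : 1 ≤ m) : ∫ x, (fourier m x : ℂ) ∂ν = 0 := by
  obtain ⟨μ, hμ, hν, hat⟩ := exists_inv23 ν h2 h3
  set γ' : ℝ := max γ 1 with hγ'
  have hγ1 : 1 ≤ γ' := le_max_right _ _
  have hγ2 : γ' < 3 / 2 := max_lt hγ (by norm_num)
  have key : ∀ B : ℕ, 2 ≤ B → ∀ m : ℕ, 1 ≤ m → ∀ η : ℝ, 0 < η → Summable fun q : ℕ =>
      ((B : ℝ) ^ q / (q : ℝ) ^ γ') *
        ν.real {x | η < ‖oavg g (B ^ q) m x - ∫ y, (fourier m y : ℂ) ∂ν‖} := by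
    intro B hB m hm η hη
    exact summable_pow_of_summable B hB γ' (by linarith) η hη
      (fun N => ν.real {x | η < ‖oavg g N m x - ∫ y, (fourier m y : ℂ) ∂ν‖})
      (fun N => ν.real {x | η / 2 < ‖oavg g N m x - ∫ y, (fourier m y : ℂ) ∂ν‖})
      (fun N => measureReal_nonneg) (fun N => measureReal_nonneg)
      (fun N N' h4 h5 h6 => real_odev_mono g N N' m _ η h4 h5 h6)
      (summable_log_mono (fun N => measureReal_nonneg) (le_max_left γ 1)
        (hW m hm (η / 2) (by positivity)))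
  have h5 : ∫ y, e (m * y) ∂μ = 0 := by
    rcases hg with rfl | rfl
    · refine Helper88.MR.core_tail_gen3 hγ1 hγ2 hμ (hat h0) (fun m hm η hη => ?_) m hm
      have h6 := key 3 (by norm_num) m hm η hη
      have h7 : ∀ q : ℕ, ν.real {x | η < ‖oavg 2 (3 ^ q) m x - ∫ y, (fourier m y : ℂ) ∂ν‖} =
          μ.real (dev μ (3 ^ q) 1 m η) := by
        intro q
        have := real_dev_eq hν (3 ^ q) 1 m η
        rw [← oavg_two] at this
        exact this
      simp only [h7] at h6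
      simpa using h6
    · refine Pool.Agent.Helper17.KW.core_tail_gen hγ1 hγ2 hμ (hat h0) (fun m hm η hη => ?_) m hm
      have h6 := key 2 (by norm_num) m hm η hη
      have h7 : ∀ q : ℕ, ν.real {x | η < ‖oavg 3 (2 ^ q) m x - ∫ y, (fourier m y : ℂ) ∂ν‖} =
          μ.real (dev μ 1 (2 ^ q) m η) := by
        intro q
        have := real_dev_eq hν 1 (2 ^ q) m η
        rw [← oavg_three] at this
        exact this
      simp only [h7] at h6
      simpa using h6
  rw [integral_fourier_eq hν (m : ℤ), ← h5]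
  unfold cf
  push_cast
  rfl

/-- Moment bounds give weighted complete convergence. -/
theorem series_of_moment (g : ℕ) (m : ℤ) (c : ℂ) (θ : ℝ) (hθ : θ < 1 / 2) (p C : ℝ) (hp : 0 < p)
    (hV : ∀ N : ℕ, 1 ≤ N →
      ∫ x, ‖oavg g N m x - c‖ ^ p ∂ν ≤ C * Real.log (N + 1) ^ θ / N) (η : ℝ) (hη : 0 < η) :
    Summable fun N : ℕ => ν.real {x | η < ‖oavg g N m x - c‖} /
      Real.log (N + 2) ^ (5 / 4 + max θ 0 / 2) := by
  have hηp : 0 < η ^ p := Real.rpow_pos_of_pos hη p
  refine summable_of_rate θ hθ (C / η ^ p) _ (fun N => measureReal_nonneg) (fun N hN => ?_)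
  have hint : Integrable (fun x => ‖oavg g N m x - c‖ ^ p) ν := by
    refine Helper17.TranslM.integrable_cont ν ?_
    exact ((continuous_oavg _ _ _).sub continuous_const).norm.rpow_const (fun x => Or.inr hp.le)
  have h1 := mul_meas_ge_le_integral_of_nonneg
    (Eventually.of_forall fun x => by positivity) hint (η ^ p)
  have h2 : ν.real {x | η < ‖oavg g N m x - c‖} ≤
      ν.real {x | η ^ p ≤ ‖oavg g N m x - c‖ ^ p} := by
    refine measureReal_mono ?_
    intro x hx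
    exact Real.rpow_le_rpow hη.le (le_of_lt hx) hp.le
  have h3 : η ^ p * ν.real {x | η < ‖oavg g N m x - c‖} ≤ C * Real.log (N + 1) ^ θ / N :=
    (mul_le_mul_of_nonneg_left h2 hηp.le).trans (h1.trans (hV N hN))
  have h4 : C / η ^ p * Real.log (N + 1) ^ θ / N = (C * Real.log (N + 1) ^ θ / N) / η ^ p := by
    ring
  rw [h4, le_div_iff₀ hηp, mul_comm]
  exact h3

end

end Pool.Agent.Helper61.DR
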