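import Mathlib
import Pool.Agent.Helper61.FR.Defs

/-!
# Spectral densities: Lebesgue measure and the Riemann-Lebesgue lemma
-/

set_option autoImplicit false

open MeasureTheory Finset Filter Topology
open scoped FourierTransform

namespace Pool.Agent.Helper61.DR

open Pool.Agent.Helper61.FR

/-- the square `[-1/2, 1/2] ^ 2` -/
def sq : Set (ℝ × ℝ) := Set.Icc (-(1 / 2) : ℝ) (1 / 2) ×ˢ Set.Icc (-(1 / 2) : ℝ) (1 / 2)

lemma measurableSet_sq : MeasurableSet sq := measurableSet_Icc.prod measurableSet_Icc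

lemma e_add' (x y : ℝ) : e (x + y) = e x * e y := by
  unfold e
  rw [← Complex.exp_add]
  congr 1
  push_cast
  ring

lemma int_e (a : ℤ) : ∫ u in Set.Icc (-(1 / 2) : ℝ) (1 / 2), e (a * u) =
    if a = 0 then 1 else 0 := by
  split_ifs with h
  · subst h
    have h1 : ∀ u : ℝ, e (((0 : ℤ) : ℝ) * u) = 1 := by
      intro u
      unfold e
      simp
    simp only [h1]
    simp
    norm_num
  · rw [integral_Icc_eq_integral_Ioc, ← intervalIntegral.integral_of_le (by norm_num)]
    set c : ℂ := 2 * Real.pi * a * Complex.I with hc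
    have hc0 : c ≠ 0 := by
      rw [hc]
      have h1 : (Real.pi : ℂ) ≠ 0 := by exact_mod_cast Real.pi_ne_zero
      have h2 : (a : ℂ) ≠ 0 := by exact_mod_cast h
      simp [h1, h2]
    have h1 : ∀ u : ℝ, e (a * u) = Complex.exp (c * u) := by
      intro u
      unfold e
      rw [hc]
      congr 1
      push_cast
      ring
    simp only [h1]
    rw [integral_exp_mul_complex hc0]
    have h2 : Complex.exp (c * ((1 / 2 : ℝ) : ℂ)) = Complex.exp (c * ((-(1 / 2) : ℝ) : ℂ)) := by
      have h3 : c * ((1 / 2 : ℝ) : ℂ) = c * ((-(1 / 2) : ℝ) : ℂ) + a * (2 * Real.pi * Complex.I) := by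
        rw [hc]
        push_cast
        ring
      rw [h3, Complex.exp_add, Complex.exp_int_mul_two_pi_mul_I, mul_one]
    rw [h2, sub_self, zero_div]

lemma int_e_sq (a b : ℤ) : ∫ p in sq, e (a * p.1 + b * p.2) =
    if a = 0 ∧ b = 0 then 1 else 0 := by
  have h1 : ∀ p : ℝ × ℝ, e (a * p.1 + b * p.2) = e (a * p.1) * e (b * p.2) := fun p => e_add' _ _
  simp only [h1]
  unfold sq
  rw [Measure.volume_eq_prod, setIntegral_prod_mul (fun u => e (a * u)) (fun v => e (b * v)),
    int_e, int_e]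
  by_cases ha : a = 0 <;> by_cases hb : b = 0 <;> simp [ha, hb]

/-- the Riemann-Lebesgue lemma in the second variable -/
lemma tendsto_coeff (d : ℝ × ℝ → ℝ) :
    Tendsto (fun b : ℕ => ∫ p in sq, (d p : ℂ) * e (((0 : ℤ) : ℝ) * p.1 + (b : ℝ) * p.2)) atTop
      (𝓝 0) := by
  set f : ℝ × ℝ → ℂ := sq.indicator fun p => (d p : ℂ) with hf
  have h1 := tendsto_integral_exp_smul_cocompact f (volume : Measure (ℝ × ℝ))
  set w : ℕ → StrongDual ℝ (ℝ × ℝ) := fun b => (-(b : ℝ)) • ContinuousLinearMap.snd ℝ ℝ ℝ with hw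
  have h2 : Tendsto w atTop (cocompact (StrongDual ℝ (ℝ × ℝ))) := by
    apply tendsto_cocompact_of_tendsto_dist_comp_atTop (0 : StrongDual ℝ (ℝ × ℝ))
    refine tendsto_atTop_mono (fun b => ?_) tendsto_natCast_atTop_atTop
    rw [dist_zero_right]
    have h3 := (w b).le_opNorm (0, 1)
    have h4 : ‖((0, 1) : ℝ × ℝ)‖ = 1 := by simp [Prod.norm_def]
    rw [h4, mul_one] at h3
    have h5 : ‖w b (0, 1)‖ = b := by
      rw [hw]
      simp
    linarith
  refine (h1.comp h2).congr fun b => ?_
  show ∫ p, 𝐞 (-(w b p)) • f p = _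
  rw [← integral_indicator measurableSet_sq]
  refine integral_congr_ae (Eventually.of_forall fun p => ?_)
  show 𝐞 (-(w b p)) • f p = _
  rw [hf]
  by_cases hp : p ∈ sq
  · rw [Set.indicator_of_mem hp, Set.indicator_of_mem hp]
    have h5 : -(w b p) = b * p.2 := by
      rw [hw]
      simp
    rw [h5, Circle.smul_def, Real.fourierChar_apply, smul_eq_mul, mul_comm]
    congr 1
    unfold e
    congr 1
    push_cast
    ring
  · rw [Set.indicator_of_notMem hp, Set.indicator_of_notMem hp, smul_zero]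

end Pool.Agent.Helper61.DR
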