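import Mathlib
import Pool.Agent.Helper17.TranslM

/-!
# Finitely supported measures with decaying correlations
-/

set_option autoImplicit false

open MeasureTheory Finset Filter
open scoped ComplexConjugate

namespace Pool.Agent.Helper61.DR

section

variable {ν : Measure (AddCircle (1 : ℝ))} [IsProbabilityMeasure ν]

lemma fourier_eq_pow (n : ℤ) (x : AddCircle (1 : ℝ)) :
    (fourier n x : ℂ) = (fourier 1 x : ℂ) ^ n := by
  rw [fourier_one, fourier_apply, AddCircle.toCircle_zsmul, Circle.coe_zpow]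

/-- a measure whose first coefficient has absolute value `1` is a point mass -/
lemma coeff_pow (hu : ‖∫ x, (fourier 1 x : ℂ) ∂ν‖ = 1) (n : ℤ) :
    ∫ x, (fourier n x : ℂ) ∂ν = (∫ x, (fourier 1 x : ℂ) ∂ν) ^ n := by
  set u : ℂ := ∫ x, (fourier 1 x : ℂ) ∂ν with hu'
  have hint : ∀ f : AddCircle (1 : ℝ) → ℂ, Continuous f → Integrable f ν := fun f hf =>
    Helper17.TranslM.integrable_cont ν hf
  have h1 : ∫ x, ‖(fourier 1 x : ℂ) - u‖ ^ 2 ∂ν = 0 := by
    have h2 : ∀ x : AddCircle (1 : ℝ), ‖(fourier 1 x : ℂ) - u‖ ^ 2 =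
        2 - 2 * (conj u * (fourier 1 x : ℂ)).re := by
      intro x
      have h3 : ‖(fourier 1 x : ℂ)‖ = 1 := by
        rw [fourier_one]; exact Circle.norm_coe _
      have h4 := Complex.normSq_sub (fourier 1 x : ℂ) u
      rw [Complex.normSq_eq_norm_sq, Complex.normSq_eq_norm_sq, Complex.normSq_eq_norm_sq, h3, hu,
        mul_comm (fourier 1 x : ℂ)] at h4
      rw [h4]
      ring
    simp only [h2]
    have h5 : ∫ x, (conj u * (fourier 1 x : ℂ)).re ∂ν = 1 := by
      have h6 : ∫ x, (conj u * (fourier 1 x : ℂ)).re ∂ν = (∫ x, conj u * (fourier 1 x : ℂ) ∂ν).re := by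
        have := integral_re (μ := ν) (f := fun x => conj u * (fourier 1 x : ℂ))
          (hint _ (by fun_prop))
        simpa using this
      rw [h6, integral_const_mul, ← hu', mul_comm, Complex.mul_conj, Complex.normSq_eq_norm_sq, hu]
      norm_num
    rw [integral_sub (integrable_const _) ((Helper17.TranslM.integrable_cont ν (by fun_prop))),
      integral_const_mul, h5]
    simp
  have h2 : (fun x => ‖(fourier 1 x : ℂ) - u‖ ^ 2) =ᵐ[ν] 0 := by
    rw [← integral_eq_zero_iff_of_nonneg (fun x => by positivity)]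
    · exact h1
    · exact Helper17.TranslM.integrable_cont ν (by fun_prop)
  have h3 : (fun x => (fourier n x : ℂ)) =ᵐ[ν] fun _ => u ^ n := by
    filter_upwards [h2] with x hx
    have h4 : ‖(fourier 1 x : ℂ) - u‖ ^ 2 = 0 := hx
    have h5 : (fourier 1 x : ℂ) = u := by
      rw [pow_eq_zero_iff two_ne_zero, norm_eq_zero, sub_eq_zero] at h4
      exact h4
    rw [fourier_eq_pow, h5]
  rw [integral_congr_ae h3]
  simp

omit [IsProbabilityMeasure ν] in
/-- `×g` permutes the atoms of a finitely supported invariant measure -/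
lemma exists_period (g : ℕ) (h3 : MeasurePreserving (fun x : AddCircle (1 : ℝ) => g • x) ν ν)
    (Z : Set (AddCircle (1 : ℝ))) (hZ : Z.Finite) (hνZ : ν Zᶜ = 0) :
    ∃ p : ℕ, 1 ≤ p ∧ ∀ᵐ x ∂ν, (g ^ p : ℕ) • x = x := by
  classical
  set A : Set (AddCircle (1 : ℝ)) := {x | ν {x} ≠ 0} with hA
  have hAZ : A ⊆ Z := by
    intro x hx
    by_contra hxZ
    exact hx (measure_mono_null (Set.singleton_subset_iff.2 hxZ) hνZ)
  have hAf : A.Finite := hZ.subset hAZ
  have hAc : ν Aᶜ = 0 := by
    have h4 : ν (Z ∩ Aᶜ) = 0 := by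
      rw [← Set.biUnion_of_singleton (Z ∩ Aᶜ),
        measure_biUnion_null_iff (hZ.subset Set.inter_subset_left).countable]
      intro x hx
      have := hx.2
      simpa [hA] using this
    refine measure_mono_null (t := (Z ∩ Aᶜ) ∪ Zᶜ) ?_ (measure_union_null h4 hνZ)
    intro x hx
    by_cases hxZ : x ∈ Z
    · exact Or.inl ⟨hxZ, hx⟩
    · exact Or.inr hxZ
  have hpre : ∀ y : AddCircle (1 : ℝ), ν ((fun x : AddCircle (1 : ℝ) => g • x) ⁻¹' {y}) =
      ν {y} := fun y => h3.measure_preimage (measurableSet_singleton y).nullMeasurableSet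
  have hmaps : ∀ x ∈ A, g • x ∈ A := by
    intro x hx h
    apply hx
    have h5 := hpre (g • x)
    rw [h] at h5
    refine measure_mono_null (t := (fun x : AddCircle (1 : ℝ) => g • x) ⁻¹' {g • x}) ?_ h5
    rintro y rfl
    rfl
  set f : A → A := fun x => ⟨g • (x : AddCircle (1 : ℝ)), hmaps x x.2⟩ with hf
  have hsurj : Function.Surjective f := by
    rintro ⟨y, hy⟩
    by_contra hcon
    push Not at hcon
    apply hy
    rw [← hpre y]
    refine measure_mono_null ?_ hAc
    intro x hx hxA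
    exact hcon ⟨x, hxA⟩ (Subtype.ext hx)
  have : Finite A := hAf
  have hbij : Function.Bijective f := ⟨Finite.injective_iff_surjective.2 hsurj, hsurj⟩
  set σ : Equiv.Perm A := Equiv.ofBijective f hbij with hσ
  refine ⟨orderOf σ, orderOf_pos σ, ?_⟩
  have hiter : ∀ (k : ℕ) (x : A), (((σ ^ k) x : A) : AddCircle (1 : ℝ)) =
      (g ^ k : ℕ) • (x : AddCircle (1 : ℝ)) := by
    intro k
    induction k with
    | zero => intro x; simp
    | succ k ih =>
      intro x
      rw [pow_succ', Equiv.Perm.mul_apply]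
      have h6 : ((σ ((σ ^ k) x) : A) : AddCircle (1 : ℝ)) =
          g • (((σ ^ k) x : A) : AddCircle (1 : ℝ)) := rfl
      rw [h6, ih, smul_smul, pow_succ' g k]
  have hA' : ∀ᵐ x ∂ν, x ∈ A := hAc
  filter_upwards [hA'] with x hx
  have h7 := hiter (orderOf σ) ⟨x, hx⟩
  rw [pow_orderOf_eq_one, Equiv.Perm.one_apply] at h7
  exact h7.symm

/-- Correlations along `×g` for a finitely supported invariant measure. -/
lemma coeff_period (g : ℕ)
    (h3 : MeasurePreserving (fun x : AddCircle (1 : ℝ) => g • x) ν ν)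
    (Z : Set (AddCircle (1 : ℝ))) (hZ : Z.Finite) (hνZ : ν Zᶜ = 0) :
    ∃ p : ℕ, 1 ≤ p ∧ ∀ j : ℕ, ∫ x, (fourier ((g : ℤ) ^ (p * j) - 1) x : ℂ) ∂ν = 1 := by
  obtain ⟨p, hp, hper⟩ := exists_period g h3 Z hZ hνZ
  refine ⟨p, hp, fun j => ?_⟩
  have h5 : (fun x => (fourier ((g : ℤ) ^ (p * j) - 1) x : ℂ)) =ᵐ[ν] fun _ => 1 := by
    filter_upwards [hper] with x hx
    have h6 : ((g ^ (p * j) : ℕ) : ℕ) • x = x := by
      induction j with
      | zero => simp
      | succ j ih =>
        rw [Nat.mul_succ, pow_add, mul_smul, hx, ih]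
    rw [fourier_apply, sub_smul, one_smul]
    have h7 : (g : ℤ) ^ (p * j) • x = ((g ^ (p * j) : ℕ) : ℕ) • x := by
      rw [← natCast_zsmul]
      push_cast
      rfl
    rw [h7, h6, sub_self]
    simp
  rw [integral_congr_ae h5]
  simp

/-- An invariant point mass is the one at `0`. -/
lemma coeff_eq_one
    (h2 : MeasurePreserving (fun x : AddCircle (1 : ℝ) => (2 : ℕ) • x) ν ν)
    (h9 : ‖∫ x, (fourier 1 x : ℂ) ∂ν‖ = 1) : ∫ x, (fourier 1 x : ℂ) ∂ν = 1 := by
  set u : ℂ := ∫ x, (fourier 1 x : ℂ) ∂ν with hu'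
  have h10 := coeff_pow h9 2
  have h11 : ∫ x, (fourier 2 x : ℂ) ∂ν = u := by
    have h12 : ∫ x, (fourier 1 ((2 : ℕ) • x) : ℂ) ∂ν = ∫ x, (fourier 1 x : ℂ) ∂ν := by
      have h13 := integral_map (μ := ν) h2.measurable.aemeasurable
        (f := fun x => (fourier 1 x : ℂ)) (fourier 1).continuous.aestronglyMeasurable
      rw [h2.map_eq] at h13
      exact h13.symm
    rw [hu', ← h12]
    refine integral_congr_ae (Eventually.of_forall fun x => ?_)
    simp only [fourier_apply, one_smul]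
    rw [← natCast_zsmul]
    rfl
  rw [h11] at h10
  have h12 : u ≠ 0 := by
    intro h
    rw [h, norm_zero] at h9
    exact zero_ne_one h9
  have h13 : u * (u - 1) = 0 := by
    have : u = u ^ (2 : ℤ) := h10
    have h14 : u ^ (2 : ℤ) = u * u := by
      rw [zpow_ofNat, sq]
    rw [h14] at this
    linear_combination -this
  rcases mul_eq_zero.mp h13 with h | h
  · exact absurd h h12
  · exact sub_eq_zero.mp h

end

end Pool.Agent.Helper61.DR
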