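import Mathlib

/-!
# The exponents `2 ^ a 3 ^ b - 1`, cleared of denominators
-/

set_option autoImplicit false

namespace Pool.Agent.Helper61.DR

lemma clear_ne_zero {a b : ℤ} (h : ¬ (a = 0 ∧ b = 0)) :
    (2 ^ a.toNat * 3 ^ b.toNat - 2 ^ (-a).toNat * 3 ^ (-b).toNat : ℤ) ≠ 0 := by
  intro h0
  have h1 : (2 ^ a.toNat * 3 ^ b.toNat : ℤ) = 2 ^ (-a).toNat * 3 ^ (-b).toNat := by linarith
  have hodd : ∀ n : ℕ, Odd ((3 : ℤ) ^ n) := fun n => Odd.pow (by decide)
  have heven : ∀ n k : ℕ, 0 < n → Even ((2 : ℤ) ^ n * 3 ^ k) := fun n k hn =>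
    Even.mul_right ((by decide : Even (2 : ℤ)).pow_of_ne_zero (by omega)) _
  have ha : a = 0 := by
    rcases lt_trichotomy a 0 with h2 | h2 | h2
    · have e1 : a.toNat = 0 := by omega
      have h3 := heven (-a).toNat (-b).toNat (by omega)
      rw [← h1, e1, pow_zero, one_mul] at h3
      exact absurd h3 (Int.not_even_iff_odd.mpr (hodd _))
    · exact h2
    · have e1 : (-a).toNat = 0 := by omega
      have h3 := heven a.toNat b.toNat (by omega)
      rw [h1, e1, pow_zero, one_mul] at h3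
      exact absurd h3 (Int.not_even_iff_odd.mpr (hodd _))
  subst ha
  simp only [Int.toNat_zero, neg_zero, pow_zero, one_mul] at h1
  have h2 : b.toNat = (-b).toNat := by
    have h3 : (3 : ℤ) ^ b.toNat = 3 ^ (-b).toNat := h1
    exact_mod_cast Int.pow_right_injective (by norm_num : 1 < (3 : ℤ).natAbs) h3
  exact h ⟨rfl, by omega⟩

/-- the correlations of Lebesgue measure satisfy the bounds -/
lemma reg_delta {c : ℤ → ℤ → ℂ} (h0 : c 0 0 = 1) (h : ∀ a b : ℤ, ¬ (a = 0 ∧ b = 0) → c a b = 0)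
    (a b : ℤ) : ‖c a b‖ ≤ 4 * (1 + |(a : ℝ)| + |(b : ℝ)|) ^ (-(1 : ℝ)) ∧
      ‖c (a + 1) b - c a b‖ ≤ 4 * (1 + |(a : ℝ)| + |(b : ℝ)|) ^ (-1 - (1 : ℝ)) := by
  have hpos : ∀ s : ℝ, 0 ≤ 4 * (1 + |(a : ℝ)| + |(b : ℝ)|) ^ s := fun s => by positivity
  constructor
  · by_cases h1 : a = 0 ∧ b = 0
    · obtain ⟨rfl, rfl⟩ := h1
      rw [h0]
      norm_num
    · rw [h a b h1, norm_zero]
      exact hpos _
  · by_cases h1 : a = 0 ∧ b = 0
    · obtain ⟨rfl, rfl⟩ := h1
      rw [h0, h (0 + 1) 0 (by simp)]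
      norm_num
    · by_cases h2 : a + 1 = 0 ∧ b = 0
      · obtain ⟨h2, rfl⟩ := h2
        have h3 : a = -1 := by omega
        subst h3
        rw [h (-1) 0 (by simp), show (-1 + 1 : ℤ) = 0 by norm_num, h0]
        have : (-1 - (1 : ℝ)) = ((-2 : ℤ) : ℝ) := by norm_num
        rw [this, Real.rpow_intCast]
        norm_num
      · rw [h a b h1, h (a + 1) b h2]
        simp only [sub_self, norm_zero]
        exact hpos _

end Pool.Agent.Helper61.DR
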