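import Mathlib
import Pool.Agent.Helper40.LPA.Single
import Pool.Agent.Helper17.JR.MainDens

/-!
# A single character
-/

set_option autoImplicit false

open MeasureTheory Finset Filter

namespace Pool.Agent.Helper61.DR

open Pool.Agent.Helper61.FR Pool.Agent.Helper17.JR

lemma tendsto_wid {γ : ℝ} (hγ0 : 0 < γ) : Tendsto (wid γ) atTop atTop := by
  rw [tendsto_atTop]
  intro b
  obtain ⟨Q, hQ⟩ := exists_log_ge hγ0 b
  filter_upwards [eventually_ge_atTop Q] with q hq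
  have h1 := hQ q hq
  unfold wid
  calc b ≤ 2 ^ b := Nat.lt_two_pow_self.le
    _ ≤ _ := Nat.pow_le_pow_right (by norm_num) h1

theorem false_of_jump_single {μ : Measure ℝ} (h : Inv23 μ) (h0 : ∀ x, μ {x} = 0)
    (m : ℕ) (hm : 1 ≤ m) (hφ : 1 / 2 < ‖∫ y, e (m * y) ∂μ‖)
    (κ a : ℝ) (hκ : 0 ≤ κ) (ha : 0 ≤ a) (hκa : 3 * κ + 2 * a < 1)
    (hroot : ∀ η : ℝ, 0 < η → Summable fun q : ℕ => μ.real (dev μ (2 ^ q) (2 ^ q) m η))
    (hV : ∃ C : ℝ, 0 ≤ C ∧ ∀ q j, j ≤ q →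
      jump μ m q j ≤ C * (2 : ℝ) ^ (κ * j) * ((q : ℝ) + 1) ^ a / 2 ^ q) : False := by
  obtain ⟨γ, hγ1, hγ2⟩ : ∃ γ : ℝ, (1 + a) / (1 - κ) < γ ∧ γ < 3 / 2 := by
    apply _root_.exists_between
    rw [div_lt_iff₀ (by linarith)]
    linarith
  have hγ3 : 1 + a < γ * (1 - κ) := by
    rw [div_lt_iff₀ (by linarith)] at hγ1
    exact hγ1
  have hγ0 : 0 < γ := by
    by_contra hcon
    push Not at hcon
    have : γ * (1 - κ) ≤ 0 := mul_nonpos_of_nonpos_of_nonneg hcon (by linarith)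
    linarith
  obtain ⟨C, hC, hCV⟩ := hV
  refine Helper40.LPA.false_of_moving_single h h0 m hm hφ hγ2 (wid γ) (tendsto_wid hγ0) ?_
    (moving_of_jump h m κ a γ C hκ (by linarith) ha hγ0 (by linarith) hγ3 hC hroot hCV)
  filter_upwards [eventually_ge_atTop 1] with q hq
  exact wid_le hγ0.le hq

theorem not_reg_single {μ : Measure ℝ} (h : Inv23 μ) (h0 : ∀ x, μ {x} = 0)
    (m : ℕ) (hm : 1 ≤ m) (hφ : 1 / 2 < ‖∫ y, e (m * y) ∂μ‖) (β : ℝ) (hβ : 2 / 3 < β) (C : ℝ) :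
    ¬ Reg μ m β C := by
  intro hR
  have hR' : Reg μ m (min β (9 / 10)) C := hR.mono (min_le_left _ _) hR.nonneg
  have h1 : 2 / 3 < min β (9 / 10) := lt_min hβ (by norm_num)
  have h2 : min β (9 / 10) ≤ 9 / 10 := min_le_right _ _
  refine false_of_jump_single h h0 m hm hφ (1 - min β (9 / 10)) 0 (by linarith) le_rfl
    (by linarith) (fun η hη => ?_) ?_
  · exact root_summable h m _ C (by linarith) (by linarith) hR' η hη
  · obtain ⟨C', hC', hJ⟩ := jump_le h m _ C (by linarith) (by linarith) hR'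
    refine ⟨C', hC', fun q j hj => (hJ q j hj).trans (le_of_eq ?_)⟩
    rw [Real.rpow_zero, mul_one]

theorem not_dens_single {μ : Measure ℝ} (h : Inv23 μ) (h0 : ∀ x, μ {x} = 0)
    (m : ℕ) (hm : 1 ≤ m) (hφ : 1 / 2 < ‖∫ y, e (m * y) ∂μ‖) (s : ℝ) (hs : s < 4 / 3) (C : ℝ) :
    ¬ Dens μ m s C := by
  intro hD
  have hD' : Dens μ m (max s (7 / 6)) C := hD.mono (le_max_left _ _)
  have h1 : max s (7 / 6) < 4 / 3 := max_lt hs (by norm_num)
  have h2 : 7 / 6 ≤ max s (7 / 6) := le_max_right _ _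
  refine false_of_jump_single h h0 m hm hφ (max s (7 / 6) - 1) 0 (by linarith) le_rfl
    (by linarith) (fun η hη => ?_) ?_
  · exact root_dens h m _ C (by linarith) (by linarith) hD' η hη
  · obtain ⟨C', hC', hJ⟩ := jump_dens h m _ C (by linarith) (by linarith) hD'
    refine ⟨C', hC', fun q j hj => (hJ q j hj).trans (le_of_eq ?_)⟩
    rw [Real.rpow_zero, mul_one]

theorem not_summable_single {μ : Measure ℝ} (h : Inv23 μ) (h0 : ∀ x, μ {x} = 0)
    (m : ℕ) (hm : 1 ≤ m) (hφ : 1 / 2 < ‖∫ y, e (m * y) ∂μ‖) (θ : ℝ) (hθ : θ < 1 / 2) :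
    ¬ Summable fun b : ℕ => ‖cc μ 3 m b‖ / Real.log (b + 2) ^ θ := by
  intro hS
  have hS' := summable_log_mono (fun b => norm_nonneg (cc μ 3 m b)) (le_max_left θ (1 / 4)) hS
  have h1 : max θ (1 / 4) < 1 / 2 := max_lt hθ (by norm_num)
  have h2 : 1 / 4 ≤ max θ (1 / 4) := le_max_right _ _
  set c : ℝ := ‖∫ y, e (m * y) ∂μ‖ - 1 / 2 with hc
  have hc0 : 0 < c := by rw [hc]; linarith
  refine Helper40.LPA.not_summable_dev_single h h0 m hm c hc0 (by rw [hc]; linarith)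
    (γ := 1 + max θ (1 / 4)) (by linarith) ?_
  have := summable_of_corr 2 (by norm_num) (max θ (1 / 4)) (by linarith) (by linarith) (c / 4)
    (by positivity) (fun b => ‖cc μ 3 m b‖) (fun b => norm_nonneg _) hS'
    (fun q => μ.real (dev μ 1 (2 ^ q) m (c / 4))) (fun q => measureReal_nonneg) (fun q hq =>
      dev_le_three h (2 ^ q) m Nat.one_le_two_pow _ (by positivity) _
        (cesaro_le _ _ Nat.one_le_two_pow))
  simpa using this

end Pool.Agent.Helper61.DR
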